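import Pool.Agent.Q274.BKL.Cv
import Pool.Agent.Q274.BKC.H0

/-!
# The Bloch–Kato formula for motives of infinitely many weights at once

Let `K = ℚ(√-7)` and `E = X_0(49) : y² + x y = x³ - x² - 2 x - 1`, with complex multiplication by the integers
of `K`, and let `ψ` be its Hecke character. For `i ≥ 0` even and a positive squarefree `D ≡ 1 mod 8`, prime
to `7`, let `M_i(D)` be the motive over `ℚ` with coefficients in `ℚ` which is cut out by an idempotent
correspondence in `h^(2i+1)(X)(i+1)`, `X = E_D × E^(2i)` (`E_D` the quadratic twist; `dim X = 2 i + 1`), and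
whose `L`-function is `L(s, M_i(D)) = L(ψ_D^(2i+1), s + i + 1)`, `ψ_D` the twist of `ψ` by the quadratic
character of `D`. It is polarized and of weight `-1`. `M_0(D)` is `h^1(E_D)(1)`; for `i ≥ 1` these are pieces of
the intermediate cohomology of varieties of dimension `5, 9, 13, …`; `M_i(D)` is the motive of the newform of
weight `2 i + 2` with complex multiplication by `K` of level `49`, twisted by `D`.

**The L-function.** Let `a_p = p - #{(x, y) mod p : y² + x y = x³ - x² - 2 x - 1}` and `X² - a_p X + p =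
(X - π) (X - π')`. The Euler factor of `M_i(D)` is, for all the primes `p ≠ 7` not dividing `D` (also `p = 2`),
`1 - χ(p) (π^(2i+1) + π'^(2i+1)) p^(-s-i-1) + p^(2i+1) p^(-2s-2i-2)`, where `χ(p)` is the symbol `(p / D)`; it
is `1` for `p = 7` and for `p` dividing `D`. The centre is `s = 0`.

**The Galois side.** `s ∈ K`, `s² = -7`; `v` is the prime of `K` above `2` at which `s` is `3` modulo `4`, `v'`
the prime at which `s` is `1` modulo `4`, and `t` is the image of `s` in `K_v = ℚ_2`. The restriction to `G_K` of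
the `2`-adic realization of `M_i(D)` is the sum of a character `χ : G_K → ℤ_2^*` and of its conjugate; `χ` has the
Hodge–Tate weight `i + 1` at `v` and `-i` at `v'`, and a Frobenius element at a prime `w = (A + B s)`, `w ∤ 14 D`,
satisfies `χ(Frob) = (A / 7) (D / N(w)) (A + B t)^(i+1) / (A - B t)^i`. The theorem is about all the continuous
characters `χ` with this property (`HasWeight`; `χ` exists by the theory of complex multiplication, which is not
used here, and is unique by Chebotarev's theorem). The group `H¹_f(K, ℚ_2(χ))` of Bloch and Kato consists of the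
classes of the continuous cocycles which are coboundaries on the inertia groups of all primes not above `2` and
on the decomposition groups of the primes above `v'`, with no condition at `v` (the Hodge–Tate weight `i + 1` is
positive at `v` and `-i ≤ 0` at `v'`, so that the local groups `H¹_f` are everything at `v` and zero at `v'`).
It is `H¹_f(ℚ, M_i(D)_2)`, and `H⁰(K, ℚ_2(χ)) = H⁰(ℚ, M_i(D)_2)`.

**The matrix.** Let all prime factors of `D` be `1` modulo `4`, `D ≡ 1` modulo `8`. `R(D)` is the following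
symmetric matrix over `𝔽₂`, with rows and columns indexed by the prime factors `p` of `D` which split in `K`: the
entry at `(p, p')` is `0` if `p'` is a square modulo `p` and `1` otherwise; the diagonal entry at `p` is the sum
of the symbols of all the other prime factors of `D` modulo `p` and of the symbol which is `0` if `-7` is a fourth
power modulo `p` and `1` otherwise. The matrix does not depend on the weight.

**Theorem.** (1) If `R(D)` is nonsingular, then for ALL even `i ≥ 0`: `L(s, M_i(D))` is entire, and the formula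
`ord_{s=0} L(s, M_i(D)) = dim H¹_f(ℚ, M_i(D)_2) - dim H⁰(ℚ, M_i(D)_2)` holds, with both sides `0`.
(2) Let `m_1, …, m_M` be different positive squarefree integers `≡ 1` modulo `8` whose prime factors are `1`
modulo `8` or inert in `K` and `5` modulo `8`. For exactly the proportion `κ^M`, `κ = (1 - 1/2) (1 - 1/8)
(1 - 1/32) ⋯ = 0.4194…`, of the squarefree `D` with all prime factors `1` modulo `8`, all the matrices
`R(m_1 D), …, R(m_M D)` (products modulo squares) are nonsingular; so for these `D` the formula of (1) holds for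
all the `M` twists and for all even weights `i` at once.

The proof: for `i = 0` the algebraic part of the central value is a sum of the values of the zeta function at
points of odd order. For even `i ≥ 2` the numbers of Eisenstein and Kronecker `i! e*_{i,i+1}(z)` at the points of
odd order are congruent modulo `4` to a `2`-stabilization of the numbers of weight zero, by the Lamé equations
for the function of Kronecker in both variables and the integrality of its Laurent series at the origin in the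
parameter of the formal group; the recursion over the divisors of `D` then gives that the `2`-adic valuation of
the algebraic part of `L(M_i(D), 0)` is the least possible one exactly if `R(D)` is nonsingular, for all the
weights at once. The Selmer groups are bounded by a descent for all the weights at once.
-/

set_option autoImplicit false
set_option linter.all false

namespace Pool.Agent.Results.MP_ec4e4b_nt.AllEvenWeights

open NumberField IsDedekindDomain Filter
open scoped Classical Topology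

/-- The absolute Galois group of `K`, with the Krull topology. -/
abbrev G (K : Type) [Field K] : Type := Gal(AlgebraicClosure K/K)

/-- The ring of all the algebraic integers in the algebraic closure of `K`. -/
abbrev Zbar (K : Type) [Field K] : Type := 𝓞 (AlgebraicClosure K)

section
variable {K : Type} [Field K]

/-- The decomposition group of the maximal ideal `Q`. -/
def decomposition (Q : Ideal (Zbar K)) : Set (G K) := {σ | ∀ x : Zbar K, σ • x ∈ Q ↔ x ∈ Q}

/-- The inertia group of the maximal ideal `Q`. -/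
def inertia (Q : Ideal (Zbar K)) : Set (G K) := {σ | ∀ x : Zbar K, σ • x - x ∈ Q}

/-- The value of the character `χ` in `ℚ_2`. -/
noncomputable def value (χ : G K →* ℤ_[2]ˣ) (σ : G K) : ℚ_[2] := ((χ σ : ℤ_[2]) : ℚ_[2])

/-- The restriction of `c` to `H` is a coboundary with values in `ℚ_2(χ)`. -/
def CoboundaryOn (χ : G K →* ℤ_[2]ˣ) (c : G K → ℚ_[2]) (H : Set (G K)) : Prop :=
  ∃ y : ℚ_[2], ∀ σ ∈ H, c σ = (value χ σ - 1) * y

/-- `Q` is above the prime `v'` of `K` above `2` at which `s` is `1` modulo `4`: `Q` contains `2` and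
`(1 - s) / 2`. -/
def AboveConj (s : K) (Q : Ideal (Zbar K)) : Prop := (2 : Zbar K) ∈ Q ∧
  ∃ z : Zbar K, z ∈ Q ∧ 2 * (z : AlgebraicClosure K) = 1 - algebraMap K (AlgebraicClosure K) s

/-- The continuous cocycles with values in `ℚ_2(χ)` which satisfy the conditions of Bloch and Kato: they
are coboundaries on the inertia groups outside `2` and on the decomposition groups above `v'`. -/
def IsSelmer (s : K) (χ : G K →* ℤ_[2]ˣ) (c : G K → ℚ_[2]) : Prop :=
  Continuous c ∧ (∀ σ τ, c (σ * τ) = c σ + value χ σ * c τ) ∧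
  (∀ Q : Ideal (Zbar K), Q.IsMaximal → (2 : Zbar K) ∉ Q → CoboundaryOn χ c (inertia Q)) ∧
  (∀ Q : Ideal (Zbar K), Q.IsMaximal → AboveConj s Q → CoboundaryOn χ c (decomposition Q))

/-- The space of these cocycles. -/
def selmer (s : K) (χ : G K →* ℤ_[2]ˣ) : Submodule ℚ_[2] (G K → ℚ_[2]) where
  carrier := {c | IsSelmer s χ c}
  add_mem' := by
    rintro a b ⟨ha1, ha2, ha3, ha4⟩ ⟨hb1, hb2, hb3, hb4⟩
    refine ⟨ha1.add hb1, fun σ τ => ?_, fun Q h1 h2 => ?_, fun Q h1 h2 => ?_⟩
    · simp only [Pi.add_apply, ha2, hb2]; ring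
    · obtain ⟨y, hy⟩ := ha3 Q h1 h2
      obtain ⟨z, hz⟩ := hb3 Q h1 h2
      exact ⟨y + z, fun σ hσ => by rw [Pi.add_apply, hy σ hσ, hz σ hσ]; ring⟩
    · obtain ⟨y, hy⟩ := ha4 Q h1 h2
      obtain ⟨z, hz⟩ := hb4 Q h1 h2
      exact ⟨y + z, fun σ hσ => by rw [Pi.add_apply, hy σ hσ, hz σ hσ]; ring⟩
  zero_mem' := by
    refine ⟨continuous_const, fun σ τ => by simp, fun Q _ _ => ⟨0, fun σ _ => by simp⟩,
      fun Q _ _ => ⟨0, fun σ _ => by simp⟩⟩
  smul_mem' := by
    rintro k a ⟨ha1, ha2, ha3, ha4⟩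
    refine ⟨ha1.const_smul k, fun σ τ => ?_, fun Q h1 h2 => ?_, fun Q h1 h2 => ?_⟩
    · simp only [Pi.smul_apply, ha2, smul_eq_mul]; ring
    · obtain ⟨y, hy⟩ := ha3 Q h1 h2
      exact ⟨k * y, fun σ hσ => by rw [Pi.smul_apply, hy σ hσ, smul_eq_mul]; ring⟩
    · obtain ⟨y, hy⟩ := ha4 Q h1 h2
      exact ⟨k * y, fun σ hσ => by rw [Pi.smul_apply, hy σ hσ, smul_eq_mul]; ring⟩

/-- The space of the coboundaries `σ ↦ (χ(σ) - 1) y` (they are in `selmer s χ`). -/
noncomputable def coboundaries (χ : G K →* ℤ_[2]ˣ) : Submodule ℚ_[2] (G K → ℚ_[2]) :=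
  Submodule.span ℚ_[2] {fun σ => value χ σ - 1}

/-- The Bloch–Kato Selmer group `H¹_f(K, ℚ_2(χ))`: the cocycles modulo the coboundaries. -/
abbrev H1f (s : K) (χ : G K →* ℤ_[2]ˣ) : Type :=
  selmer s χ ⧸ (coboundaries χ).comap (selmer s χ).subtype

end

/-- `σ` is a Frobenius element at the prime `w` of `K`: `σ x ≡ x ^ N(w)` modulo some maximal ideal above
`w` of the ring of all algebraic integers. -/
def IsFrobenius {K : Type} [Field K] [NumberField K] (w : HeightOneSpectrum (𝓞 K)) (σ : G K) : Prop :=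
  ∃ Q : Ideal (Zbar K), Q.IsMaximal ∧ Q.comap (algebraMap (𝓞 K) (Zbar K)) = w.asIdeal ∧
    ∀ x : Zbar K, σ • x - x ^ Ideal.absNorm w.asIdeal ∈ Q

/-- The invariants `H⁰(K, ℚ_2(χ))`. -/
def invariants {K : Type} [Field K] (χ : G K →* ℤ_[2]ˣ) : Submodule ℚ_[2] ℚ_[2] where
  carrier := {x | ∀ σ, value χ σ * x = x}
  add_mem' := fun ha hb σ => by rw [mul_add, ha σ, hb σ]
  zero_mem' := fun σ => mul_zero _
  smul_mem' := fun k a ha σ => by rw [smul_eq_mul, mul_left_comm, ha σ]

/-- `χ` is the 2-adic character of `ψ^(i+1) ψ'^(-i)` twisted by the quadratic character of `D` (`i` even);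
`t` is the image of `s` at `v`. For the primes `w` not dividing `14 D` and for odd `n`, `w^n = (A + B s)`:
`χ(Frob_w)^n (A - B t)^i = (A / 7) (D / (A² + 7 B²)) (A + B t)^(i+1)`. (The case `n = 1` suffices, since `w` is
principal.) -/
def HasWeight {K : Type} [Field K] [NumberField K] (D i : ℕ) (s : K) (t : ℤ_[2])
    (χ : G K →* ℤ_[2]ˣ) : Prop :=
  ∀ (w : HeightOneSpectrum (𝓞 K)) (σ : G K) (n : ℕ) (A B : ℤ) (β : 𝓞 K),
    ((14 * D : ℕ) : 𝓞 K) ∉ w.asIdeal → IsFrobenius w σ → Odd n →
    w.asIdeal ^ n = Ideal.span {β} → (β : K) = A + B * s →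
    ((χ σ : ℤ_[2]) ^ n) * ((A : ℤ_[2]) - B * t) ^ i =
      ((jacobiSym A 7 * jacobiSym D (A ^ 2 + 7 * B ^ 2).natAbs : ℤ) : ℤ_[2]) *
        ((A : ℤ_[2]) + B * t) ^ (i + 1)

/-- `a_p = p - #{(x, y) mod p : y² + x y = x³ - x² - 2 x - 1}`. -/
noncomputable def a (p : ℕ) : ℤ := p - Nat.card {x : ZMod p × ZMod p //
  x.2 ^ 2 + x.1 * x.2 = x.1 ^ 3 - x.1 ^ 2 - 2 * x.1 - 1}

/-- `π^n + π'^n`, for `X² - a_p X + p = (X - π) (X - π')`. -/
noncomputable def powerSum (p : ℕ) : ℕ → ℤ
  | 0 => 2
  | 1 => a p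
  | n + 2 => a p * powerSum p (n + 1) - p * powerSum p n

/-- The Euler factor of `M_i(D)` at `p`, all `p`. -/
noncomputable def eulerFactor (D i : ℕ) (s : ℂ) (p : ℕ) : ℂ :=
  1 - (jacobiSym p D * powerSum p (2 * i + 1) : ℤ) * (p : ℂ) ^ (-(s + i + 1)) +
    (if p = 7 then 0 else 1) * ((jacobiSym p D ^ 2 * p ^ (2 * i + 1) : ℤ) : ℂ) *
      ((p : ℂ) ^ (-(s + i + 1))) ^ 2

/-- `F` is the `L`-function `L(s, M_i(D))`: an entire function which is the product of the inverses of all the
Euler factors for `Re s > 1/2`. -/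
def IsLFunction (D i : ℕ) (F : ℂ → ℂ) : Prop := Differentiable ℂ F ∧
  ∀ s : ℂ, 1 / 2 < s.re → HasProd (fun p : Nat.Primes => (eulerFactor D i s p)⁻¹) (F s)

/-- The formula for `M_i(D)` and `p = 2`, with both sides zero: the `L`-function is entire, its order at the
centre `s = 0` is zero, and `H¹_f(K, ℚ_2(χ)) = 0 = H⁰(K, ℚ_2(χ))`. -/
def Formula (D i : ℕ) : Prop := ∃ F : ℂ → ℂ, IsLFunction D i F ∧ analyticOrderAt F 0 = 0 ∧
  ∀ (K : Type) [Field K] [NumberField K] (s : K) (t : ℤ_[2]) (χ : G K →* ℤ_[2]ˣ),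
    Module.finrank ℚ K = 2 → s ^ 2 = -7 → t ^ 2 = -7 → (4 : ℤ_[2]) ∣ t - 3 → Continuous χ →
    HasWeight D i s t χ →
    Module.rank ℚ_[2] (H1f s χ) = 0 ∧ Module.rank ℚ_[2] (invariants χ) = 0

/-- The class of the `D`: squarefree, all prime factors `1` modulo `4`, `D ≡ 1` modulo `8`. -/
def Class (D : ℕ) : Prop := Squarefree D ∧ (∀ p : ℕ, p.Prime → p ∣ D → p % 4 = 1) ∧ D % 8 = 1

/-- The prime factors of `D` which split in `ℚ(√-7)`. -/
noncomputable def splitPrimes (D : ℕ) : Finset ℕ :=
  D.primeFactors.filter fun p => IsSquare (-7 : ZMod p)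

/-- `0` if `a` is a square modulo `p` and `1` otherwise. -/
noncomputable def nonsquare (p a : ℕ) : ZMod 2 := if IsSquare (a : ZMod p) then 0 else 1

/-- `0` if `-7` is a fourth power modulo `p` and `1` otherwise. -/
noncomputable def nonfourth (p : ℕ) : ZMod 2 := if ∃ y : ZMod p, y ^ 4 = -7 then 0 else 1

/-- The matrix `R(D)`. -/
noncomputable def R (D : ℕ) : Matrix (splitPrimes D) (splitPrimes D) (ZMod 2) :=
  Matrix.of fun i j => if i = j then ∑ r ∈ D.primeFactors.erase i, nonsquare i r + nonfourth i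
    else nonsquare i j

/-- The squarefree integers with all prime factors `1` modulo `8`. -/
def Class8 (D : ℕ) : Prop := Squarefree D ∧ ∀ p : ℕ, p.Prime → p ∣ D → p % 8 = 1

/-- The factors `m_j`: in the class, all prime factors `1` mod `8` or inert in `ℚ(√-7)` and `5` mod `8`. -/
def Factor (m : ℕ) : Prop := Class m ∧
  ∀ p : ℕ, p.Prime → p ∣ m → p % 8 = 1 ∨ (p % 8 = 5 ∧ ¬ IsSquare (-7 : ZMod p))

/-- The squarefree part of `m D`, for squarefree `m` and `D`. -/
def times (m D : ℕ) : ℕ := m * D / Nat.gcd m D ^ 2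

/-- The proportion of the `D ≤ X` with property `T` among those with all prime factors `1` mod `8`. -/
noncomputable def proportion (T : ℕ → Prop) (X : ℕ) : ℝ :=
  (((Finset.Icc 1 X).filter fun D => Class8 D ∧ T D).card : ℝ) /
    (((Finset.Icc 1 X).filter fun D => Class8 D).card : ℝ)

/-- The number `κ = (1 - 1/2) (1 - 1/8) (1 - 1/32) ⋯`. -/
noncomputable def κ : ℝ := ∏' i : ℕ, (1 - (1 / 2 : ℝ) ^ (2 * i + 1))

/-- (1) The formula for all even weights. -/
def AllEvenWeights : Prop := ∀ D : ℕ, Class D → (R D).det ≠ 0 → ∀ i : ℕ, Even i → Formula D i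

/-- (2) The proportion. -/
def JointProportion : Prop :=
  ∀ (M : ℕ) (m : Fin M → ℕ), Function.Injective m → (∀ j, Factor (m j)) →
    (∀ D, Class8 D → ∀ j, Class (times (m j) D)) ∧
    Tendsto (proportion fun D => ∀ j, (R (times (m j) D)).det ≠ 0) atTop (𝓝 (κ ^ M))

section proof

open Pool.Agent.Q274.BKC

lemma sel_iff {K : Type} [Field K] (s : K) (χ : G K →* ℤ_[2]ˣ) (c : G K → ℚ_[2]) :
    IsSelmer s χ c ↔ IsSel s χ c :=
  ⟨fun h => ⟨h.1, h.2.1, h.2.2.1, h.2.2.2⟩, fun h => ⟨h.cont, h.coc, h.ine, h.dec⟩⟩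

lemma sel_eq {K : Type} [Field K] (s : K) (χ : G K →* ℤ_[2]ˣ) : selmer s χ = Sel s χ :=
  Submodule.ext fun c => sel_iff s χ c

/-- the dimension of the quotient by the coboundaries -/
lemma rank_eq {K : Type} [Field K] (s : K) (χ : G K →* ℤ_[2]ˣ) :
    Module.rank ℚ_[2] (H1f s χ) = Module.rank ℚ_[2] (Pool.Agent.Q274.BKC.H1f s χ) := by
  have key : ∀ W W' : Submodule ℚ_[2] (G K → ℚ_[2]), W = W' →
      Module.rank ℚ_[2] (W ⧸ (coboundaries χ).comap W.subtype) =
      Module.rank ℚ_[2] (W' ⧸ (B1 χ).comap W'.subtype) := by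
    rintro W _ rfl
    rfl
  exact key _ _ (sel_eq s χ)

lemma cl_iff (D : ℕ) : Class D ↔ Cl 7 D := by
  constructor
  · rintro ⟨h1, h2, h3⟩
    exact ⟨h1, fun p hp hd => ⟨h2 p hp hd, by have := h2 p hp hd; omega⟩, by omega⟩
  · rintro ⟨h1, h2, h3⟩
    exact ⟨h1, fun p hp hd => (h2 p hp hd).1, by omega⟩

lemma cl8_iff (D : ℕ) : Class8 D ↔ Cl8 7 D := by
  constructor
  · rintro ⟨h1, h2⟩
    exact ⟨h1, fun p hp hd => ⟨h2 p hp hd, by have := h2 p hp hd; omega⟩⟩
  · rintro ⟨h1, h2⟩
    exact ⟨h1, fun p hp hd => (h2 p hp hd).1⟩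

lemma fac_iff {m : ℕ} (h : Factor m) : Clm 7 m ∧ (16 : ℤ) ∣ 2 * m + 5 - (7 : ℕ) := by
  have hc := (cl_iff m).1 h.1
  exact ⟨⟨h.1.1, fun p hp hm => ⟨by simpa using h.2 p hp hm, (hc.one p hp hm).2⟩⟩, hc.cong⟩

lemma sp_eq (D : ℕ) : splitPrimes D = SP 7 D := by
  unfold splitPrimes SP
  simp

lemma det_iff (D : ℕ) : (R D).det ≠ 0 ↔ corank 7 D = 0 := by
  have h1 : (Pool.Agent.Q274.BKC.R 7 D).det ≠ 0 ↔ corank 7 D = 0 := by
    unfold corank
    rw [Submodule.finrank_eq_zero, Matrix.ker_mulVecLin_eq_bot_iff]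
    constructor
    · intro h v hv
      by_contra h0
      exact h (Matrix.exists_mulVec_eq_zero_iff.1 ⟨v, h0, hv⟩)
    · intro h h0
      obtain ⟨v, hv, hv0⟩ := Matrix.exists_mulVec_eq_zero_iff.2 h0
      exact hv (h v hv0)
  rw [← h1]
  have h2 : (R D).det = (Pool.Agent.Q274.BKC.R 7 D).det := by
    have key : ∀ (S : Finset ℕ) (h : S = SP 7 D),
        (Matrix.of fun i j : S => if i = j then ∑ r ∈ D.primeFactors.erase (i : ℕ),
          nonsquare i r + nonfourth i else nonsquare i j).det =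
        (Pool.Agent.Q274.BKC.R 7 D).det := by
      rintro S rfl
      congr 1
    exact key _ (sp_eq D)
  rw [h2]

lemma weight_iff {K : Type} [Field K] [NumberField K] {D i : ℕ} (hi : Even i) {s : K} {t : ℤ_[2]}
    {χ : G K →* ℤ_[2]ˣ} (h : HasWeight D i s t χ) : IsWeight 7 D i s t χ := by
  intro w σ n A B β h1 h2 h3 h4 h5
  have h6 := h w σ n A B β (by simpa using h1) h2 h3 h4 h5
  rw [hi.neg_one_pow, one_mul]
  exact_mod_cast h6

end proof

theorem result : AllEvenWeights ∧ JointProportion ∧ 0.4194 < κ ∧ κ < 0.4195 := by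
  refine ⟨?_, ?_, Pool.Agent.Q274.BKC.kappa_bounds.1, Pool.Agent.Q274.BKC.kappa_bounds.2⟩
  · intro D hD hR i hi
    have hD' := (cl_iff D).1 hD
    have h0 := (det_iff D).1 hR
    obtain ⟨F, g1, g2, g3⟩ := Pool.Agent.Q274.BKL.central_ep hD' h0 hi
    refine ⟨F, ⟨g1, fun s hs => ?_⟩, ?_, ?_⟩
    · have e : ∀ p : ℕ, powerSum p = Pool.Agent.Q274.BKL.uu p := by
        intro p
        funext n
        induction n using Nat.twoStepInduction with
        | zero => rfl
        | one => rfl
        | more n h1 h2 =>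
          rw [powerSum, Pool.Agent.Q274.BKL.uu, h1, h2]
          rfl
      have h1 := g2 s hs
      unfold Pool.Agent.Q274.BKL.ef at h1
      unfold eulerFactor
      simp only [e]
      exact h1
    · rw [AnalyticAt.analyticOrderAt_eq_zero (g1.analyticAt 0)]
      exact g3
    · intro K _ _ s t χ hK hs ht ht4 hc hχ
      have hw := weight_iff hi hχ
      have hs' : s ^ 2 = -((7 : ℕ) : K) := by push_cast; exact hs
      have ht' : t ^ 2 = -((7 : ℕ) : ℤ_[2]) := by push_cast; exact ht
      refine ⟨?_, ?_⟩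
      · have h := Pool.Agent.Q274.BKC.main K 7 D i s t χ (by norm_num) rfl hD' hs' hK ht' ht4 hc hw
        rw [← rank_eq, h0] at h
        simpa using h
      · rw [rank_zero_iff_forall_zero]
        rintro ⟨x, hx⟩
        exact Subtype.ext (Pool.Agent.Q274.BKC.h0 K 7 D i s t χ (by norm_num) rfl hD' hs' hK ht'
          ht4 hc hw x hx)
  · intro M m hm hf
    refine ⟨fun D hD j => ?_, ?_⟩
    · obtain ⟨h1, h2⟩ := fac_iff (hf j)
      exact (cl_iff _).2 (Pool.Agent.Q274.BKC.tw_Cl h1 h2 ((cl8_iff D).1 hD))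
    · have h := Pool.Agent.Q274.BKC.t_LAW 7 (by norm_num) rfl M m (fun _ => 0) hm
        fun j => (fac_iff (hf j)).1
      rw [Pool.Agent.Q274.BKC.cR_eq] at h
      have e : (∏ j : Fin M, ((∏' i : ℕ, (1 - (1 / 2 : ℝ) ^ (2 * i + 1))) /
          ∏ i ∈ Finset.range 0, ((2 : ℝ) ^ (i + 1) - 1))) = κ ^ M := by
        simp [κ]
      rw [e] at h
      refine h.congr fun X => ?_
      unfold proportion
      simp only [det_iff, cl8_iff]
      congr! 4

end Pool.Agent.Results.MP_ec4e4b_nt.AllEvenWeights
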