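import Pool.Agent.Q283.LP.W11
import Pool.Agent.Q283.LP.W12
import Pool.Agent.Results.MP_ec4e4b_nt.AllEvenWeights

/-!
# The Bloch–Kato formula for infinitely many weights over the number fields inside almost every integer

We use the setting and the definitions of `MP_ec4e4b_nt.AllEvenWeights` (helper274 and the team): `K = ℚ(√-7)`,
`E = X_0(49) : y² + x y = x³ - x² - 2 x - 1`; for even `i ≥ 0` and a positive squarefree `N` the motive `M_i(N)` over `ℚ`
is a piece of `h^(2i+1)(X)(i+1)`, `X = E_N × E^(2i)`, with `L(s, M_i(N)) = L(ψ_N^(2i+1), s + i + 1)`, polarized of weight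
`-1`; its Euler factor at `p` is `eulerFactor N i s p`. The restriction to `G_K` of its `2`-adic realization is the sum
of a character `χ : G_K → ℤ_2^*` and of its conjugate. Let the class consist of the squarefree `N ≡ 1` modulo `8`
with all prime factors `1` modulo `4`; for these `R(N)` is the explicit symmetric matrix over `𝔽₂` on the prime factors of `N`
which split in `K`.

**Over number fields.** For `d_1, …, d_n` in the class let `F = ℚ(√d_1, …, √d_n)` and `L = K(√d_1, …, √d_n)`, and consider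
`M_i(N)` as a motive over `F`. Its `L`-function is the product of the `L`-functions of the twists of `M_i(N)` over `ℚ` by the
characters of `F` (with all the Euler factors: the factor at the primes above `p` is the product of the factors at `p` of
`M_i(N ∏_{l ∈ T} d_l)`, `T` a subset of `{1, …, n}`, products modulo squares). `H¹_f(F, M_i(N)_2) = H¹_f(L, ℚ_2(χ))` is
the space of the continuous cocycles of `G_L` with values in `ℚ_2(χ)` which are coboundaries on the inertia groups at the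
primes not above `2` and on the decomposition groups at the primes above `v'` (no condition above `v`), modulo
the coboundaries, and `H⁰(F, M_i(N)_2) = H⁰(L, ℚ_2(χ))`. `BelongsTo N i s t χ`: `χ` is the character of `M_i(N)`; it is
asked that for all `d ≥ 1` the twist of `χ` by the quadratic character of `d` has the weight `i` for the squarefree part of
`N d` (such a `χ` exists by the theory of complex multiplication and is unique by Chebotarev's theorem; both facts
are not used).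

**Theorem.** (1) Let `N` and `d_1, …, d_n` be in the class and `R(N ∏_{l ∈ T} d_l)` nonsingular for all the nonempty `T`; nothing
is assumed on `R(N)`. Then, for ALL even `i`: the `L`-functions of `M_i(N)` over `ℚ` and over `F` are entire, and they
have the same order at the centre `s = 0`; `H¹_f(K, ℚ_2(χ)) → H¹_f(L, ℚ_2(χ))` is an isomorphism; and the formula
`ord_{s=0} L(s, M) = dim H¹_f - dim H⁰` of Bloch and Kato holds for `M_i(N)` over the number field `F` if and only if it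
holds for `M_i(N)` over `ℚ`.
(2) If `R(N)` is nonsingular too, the formula holds for `M_i(N)` over `F`, with both sides `0`, for all even `i`.
(3) There is ONE set `S` of positive integers of NATURAL DENSITY `1`, and of relative density `1` in the set of the
squarefree integers with all prime factors `≡ 1 mod 4`, such that for all large `D` in `S`, for the `n`-tuples `d`
of elements of the class which divide `D`, for different `N_1, …, N_M` in the class, and with `p = κ^(2^n - 1)`,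
`κ = (1 - 1/2) (1 - 1/8) (1 - 1/32) ⋯ = 0.4194…`: for every set `Q` of indices the share of the `d` which are independent
modulo squares (`F` has the degree `2^n`) and for which exactly the `N_j`, `j ∈ Q`, satisfy the condition of (1) is within `ε` of
`p^|Q| (1 - p)^(M - |Q|)`; so for a share `≥ p^M - ε` the conclusions of (1) and (2) hold for all the `N_j` and all even
weights, and for a share `≥ 1 - (1 - p)^M - ε` for one of the `N_j` at least.
(4) For the `(n+1)`-tuples `(d_0, d)`: the share of those for which the matrices of `N_j d_0 ∏_{l ∈ T} d_l`, all `j` and all `T`,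
are nonsingular is within `ε` of `κ^(M 2^n)`; so for a share `≥ κ^(M 2^n) - ε` the formula holds for `M_i(N_j d_0)` over
`F`, for all `j ≤ M` and ALL even `i`, with both sides `0`; no condition on the `N_j`.
(5) For finitely many base points `N` there is one infinite sequence `d_1, d_2, …` in the class, independent modulo squares,
such that (1) and (2) hold for these `N`, all even `i` and all the fields `ℚ(√d_1, …, √d_n)`, `n = 0, 1, 2, …`.

The proofs: a transfer for the groups of Bloch and Kato, the theorem of `AllEvenWeights` for the twists, and the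
laws of project LP inside almost every integer (all the linear patterns of divisors), here with a condition modulo `8`.
-/

set_option autoImplicit false
set_option linter.all false

namespace Pool.Agent.Results.MP_ec4e4b_nt.AllEvenWeightsInsideDivisors

open NumberField IsDedekindDomain Filter
open Pool.Agent.Results.MP_ec4e4b_nt.AllEvenWeights (G Zbar decomposition inertia value AboveConj IsSelmer
  selmer coboundaries H1f invariants HasWeight powerSum eulerFactor IsLFunction Class R κ)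
open scoped Classical Topology

section
variable {K : Type} [Field K]

/-- The continuous cocycles of the subgroup `H` of `G_K` with values in `ℚ_2(χ)` which satisfy the conditions of
Bloch and Kato over the field of `H`. The inertia (decomposition) group of `Q` over this field is the
intersection of that over `K` with `H`. -/
def IsSelmerOver (s : K) (χ : G K →* ℤ_[2]ˣ) (H : Subgroup (G K)) (c : H → ℚ_[2]) : Prop :=
  Continuous c ∧ (∀ σ τ : H, c (σ * τ) = c σ + value χ σ * c τ) ∧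
  (∀ Q : Ideal (Zbar K), Q.IsMaximal → (2 : Zbar K) ∉ Q →
    ∃ y : ℚ_[2], ∀ σ : H, (σ : G K) ∈ inertia Q → c σ = (value χ σ - 1) * y) ∧
  (∀ Q : Ideal (Zbar K), Q.IsMaximal → AboveConj s Q →
    ∃ y : ℚ_[2], ∀ σ : H, (σ : G K) ∈ decomposition Q → c σ = (value χ σ - 1) * y)

theorem selmerOver_add {s : K} {χ : G K →* ℤ_[2]ˣ} {H : Subgroup (G K)} {a b : H → ℚ_[2]}
    (ha : IsSelmerOver s χ H a) (hb : IsSelmerOver s χ H b) : IsSelmerOver s χ H (a + b) := by
  obtain ⟨ha1, ha2, ha3, ha4⟩ := ha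
  obtain ⟨hb1, hb2, hb3, hb4⟩ := hb
  refine ⟨ha1.add hb1, fun σ τ => ?_, fun Q h1 h2 => ?_, fun Q h1 h2 => ?_⟩
  · simp only [Pi.add_apply, ha2, hb2]; ring
  · obtain ⟨y, hy⟩ := ha3 Q h1 h2
    obtain ⟨z, hz⟩ := hb3 Q h1 h2
    exact ⟨y + z, fun σ hσ => by rw [Pi.add_apply, hy σ hσ, hz σ hσ]; ring⟩
  · obtain ⟨y, hy⟩ := ha4 Q h1 h2
    obtain ⟨z, hz⟩ := hb4 Q h1 h2
    exact ⟨y + z, fun σ hσ => by rw [Pi.add_apply, hy σ hσ, hz σ hσ]; ring⟩

theorem selmerOver_zero (s : K) (χ : G K →* ℤ_[2]ˣ) (H : Subgroup (G K)) : IsSelmerOver s χ H 0 :=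
  ⟨continuous_const, fun σ τ => by simp, fun Q _ _ => ⟨0, fun σ _ => by simp⟩,
    fun Q _ _ => ⟨0, fun σ _ => by simp⟩⟩

theorem selmerOver_smul {s : K} {χ : G K →* ℤ_[2]ˣ} {H : Subgroup (G K)} (k : ℚ_[2]) {a : H → ℚ_[2]}
    (ha : IsSelmerOver s χ H a) : IsSelmerOver s χ H (k • a) := by
  obtain ⟨ha1, ha2, ha3, ha4⟩ := ha
  refine ⟨ha1.const_smul k, fun σ τ => ?_, fun Q h1 h2 => ?_, fun Q h1 h2 => ?_⟩
  · simp only [Pi.smul_apply, ha2, smul_eq_mul]; ring
  · obtain ⟨y, hy⟩ := ha3 Q h1 h2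
    exact ⟨k * y, fun σ hσ => by rw [Pi.smul_apply, hy σ hσ, smul_eq_mul]; ring⟩
  · obtain ⟨y, hy⟩ := ha4 Q h1 h2
    exact ⟨k * y, fun σ hσ => by rw [Pi.smul_apply, hy σ hσ, smul_eq_mul]; ring⟩

/-- The vector space of the functions on `H` with values in `ℚ_2`. -/
def Fn (H : Subgroup (G K)) : Type := H → ℚ_[2]

noncomputable instance fnGroup (H : Subgroup (G K)) : AddCommGroup (Fn H) :=
  inferInstanceAs (AddCommGroup (H → ℚ_[2]))

noncomputable instance fnModule (H : Subgroup (G K)) : Module ℚ_[2] (Fn H) :=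
  inferInstanceAs (Module ℚ_[2] (H → ℚ_[2]))

/-- The space of these cocycles. -/
def selmerOver (s : K) (χ : G K →* ℤ_[2]ˣ) (H : Subgroup (G K)) : Submodule ℚ_[2] (Fn H) where
  carrier := {c | IsSelmerOver s χ H c}
  add_mem' := by
    intro a b ha hb
    exact selmerOver_add ha hb
  zero_mem' := by
    exact selmerOver_zero s χ H
  smul_mem' := by
    intro k a ha
    exact selmerOver_smul k ha

/-- The coboundaries on `H`. -/
noncomputable def coboundariesOver (χ : G K →* ℤ_[2]ˣ) (H : Subgroup (G K)) :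
    Submodule ℚ_[2] (Fn H) :=
  Submodule.span ℚ_[2] {fun σ : H => value χ (σ : G K) - 1}

/-- The Bloch–Kato Selmer group `H¹_f(L, ℚ_2(χ))`, `L` the field of `H`. -/
abbrev H1fOver (s : K) (χ : G K →* ℤ_[2]ˣ) (H : Subgroup (G K)) : Type :=
  selmerOver s χ H ⧸ (coboundariesOver χ H).comap (selmerOver s χ H).subtype

/-- The dimension of `H¹_f(L, ℚ_2(χ))`. -/
noncomputable def dim1Over (s : K) (χ : G K →* ℤ_[2]ˣ) (H : Subgroup (G K)) : Cardinal :=
  Module.rank ℚ_[2] (H1fOver s χ H)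

/-- The dimension of `H¹_f(K, ℚ_2(χ))`. -/
noncomputable def dim1 (s : K) (χ : G K →* ℤ_[2]ˣ) : Cardinal := Module.rank ℚ_[2] (H1f s χ)

/-- The invariants `H⁰(L, ℚ_2(χ))`. -/
def invariantsOver (χ : G K →* ℤ_[2]ˣ) (H : Subgroup (G K)) : Submodule ℚ_[2] ℚ_[2] where
  carrier := {x | ∀ σ : H, value χ σ * x = x}
  add_mem' := fun ha hb σ => by rw [mul_add, ha σ, hb σ]
  zero_mem' := fun σ => mul_zero _
  smul_mem' := fun k a ha σ => by rw [smul_eq_mul, mul_left_comm, ha σ]

/-- The dimension of `H⁰(L, ℚ_2(χ))`. -/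
noncomputable def dim0Over (χ : G K →* ℤ_[2]ˣ) (H : Subgroup (G K)) : Cardinal :=
  Module.rank ℚ_[2] (invariantsOver χ H)

/-- The dimension of `H⁰(K, ℚ_2(χ))`. -/
noncomputable def dim0 (χ : G K →* ℤ_[2]ˣ) : Cardinal := Module.rank ℚ_[2] (invariants χ)

/-- The restriction `H¹_f(K, ℚ_2(χ)) → H¹_f(L, ℚ_2(χ))` is onto: every Selmer cocycle of `H` is the sum of the
restriction of a Selmer cocycle of `G_K` and of a coboundary. -/
def Onto (s : K) (χ : G K →* ℤ_[2]ˣ) (H : Subgroup (G K)) : Prop :=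
  ∀ c : H → ℚ_[2], IsSelmerOver s χ H c → ∃ C : G K → ℚ_[2], IsSelmer s χ C ∧
    ∃ y : ℚ_[2], ∀ σ : H, c σ = C σ + (value χ σ - 1) * y

/-- The restriction `H¹_f(K, ℚ_2(χ)) → H¹_f(L, ℚ_2(χ))` is onto (it is always injective), and the dimensions
are equal. -/
def Stable (s : K) (χ : G K →* ℤ_[2]ˣ) (H : Subgroup (G K)) : Prop :=
  Onto s χ H ∧ dim1Over s χ H = dim1 s χ

/-- `ψ` is the quadratic character of `K(√a)`. -/
def IsQuadratic (a : K) (ψ : G K →* ℤ_[2]ˣ) : Prop :=
  ∀ y : AlgebraicClosure K, y ^ 2 = algebraMap K (AlgebraicClosure K) a →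
    ∀ σ : G K, (σ y = y ∧ ψ σ = 1) ∨ (σ y = -y ∧ ψ σ = -1)

end

/-- The squarefree part of `n`. -/
def part (n : ℕ) : ℕ := ∏ p ∈ n.primeFactors.filter (fun p => n.factorization p % 2 = 1), p

/-- `χ` is the character of `M_i(N)`: for all `d ≥ 1` the twist of `χ` by the quadratic character of `d` has
the weight `i` for the squarefree part of `N d`. -/
def BelongsTo {K : Type} [Field K] [NumberField K] (N i : ℕ) (s : K) (t : ℤ_[2])
    (χ : G K →* ℤ_[2]ˣ) : Prop :=
  ∀ (d : ℕ) (ψ : G K →* ℤ_[2]ˣ), d ≠ 0 → IsQuadratic (d : K) ψ → HasWeight (part (N * d)) i s t (χ * ψ)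

/-- The field `K(√d_1, …, √d_n)`. -/
noncomputable def field (K : Type) [Field K] {n : ℕ} (d : Fin n → ℕ) :
    IntermediateField K (AlgebraicClosure K) :=
  IntermediateField.adjoin K {y | ∃ i, y ^ 2 = (d i : AlgebraicClosure K)}

/-- The absolute Galois group of `K(√d_1, …, √d_n)`, a subgroup of `G_K`. -/
noncomputable def groupOf (K : Type) [Field K] {n : ℕ} (d : Fin n → ℕ) : Subgroup (G K) :=
  (field K d).fixingSubgroup

/-- `K = ℚ(√-7)`, `s² = -7`, and `t` is the square root of `-7` in `ℤ_2` which is `3` modulo `4`. -/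
def Setting (K : Type) [Field K] [NumberField K] (s : K) (t : ℤ_[2]) : Prop :=
  Module.finrank ℚ K = 2 ∧ s ^ 2 = -7 ∧ t ^ 2 = -7 ∧ (4 : ℤ_[2]) ∣ t - 3

/-- The formula of Bloch and Kato for the `L`-function `F`, with centre `0`: its order at `0` is finite and it is the
dimension `a` of `H¹_f` minus the dimension `b` of `H⁰`. -/
def OrderFormula (F : ℂ → ℂ) (a b : Cardinal) : Prop := ∃ r : ℕ, analyticOrderAt F 0 = r ∧ a = r + b

/-- The formula for `M_i(N)` over `ℚ` and `p = 2`: the `L`-function is entire, and its order at the centre is the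
dimension of `H¹_f(K, ℚ_2(χ))` minus the dimension of `H⁰(K, ℚ_2(χ))`. -/
def Formula (N i : ℕ) : Prop := ∃ F : ℂ → ℂ, IsLFunction N i F ∧
  ∀ (K : Type) [Field K] [NumberField K] (s : K) (t : ℤ_[2]) (χ : G K →* ℤ_[2]ˣ), Setting K s t →
    Continuous χ → BelongsTo N i s t χ → OrderFormula F (dim1 s χ) (dim0 χ)

/-- The Euler factor at the primes above `p` of `M_i(N)` over `ℚ(√d_1, …, √d_n)`. -/
noncomputable def eulerOver (N i : ℕ) {n : ℕ} (d : Fin n → ℕ) (s : ℂ) (p : ℕ) : ℂ :=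
  ∏ T : Finset (Fin n), eulerFactor (part (N * ∏ l ∈ T, d l)) i s p

/-- `F` is the `L`-function of `M_i(N)` over `ℚ(√d_1, …, √d_n)`: an entire function which is the product of the inverses of
all the Euler factors for `Re s > 1/2`. -/
def IsLFunctionOver (N i : ℕ) {n : ℕ} (d : Fin n → ℕ) (F : ℂ → ℂ) : Prop := Differentiable ℂ F ∧
  ∀ s : ℂ, 1 / 2 < s.re → HasProd (fun p : Nat.Primes => (eulerOver N i d s p)⁻¹) (F s)

/-- The formula for `M_i(N)` over `ℚ(√d_1, …, √d_n)` and `p = 2`. -/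
def FormulaOver (N i : ℕ) {n : ℕ} (d : Fin n → ℕ) : Prop := ∃ F : ℂ → ℂ, IsLFunctionOver N i d F ∧
  ∀ (K : Type) [Field K] [NumberField K] (s : K) (t : ℤ_[2]) (χ : G K →* ℤ_[2]ˣ), Setting K s t →
    Continuous χ → BelongsTo N i s t χ →
      OrderFormula F (dim1Over s χ (groupOf K d)) (dim0Over χ (groupOf K d))

/-- The formula for `M_i(N)` over `ℚ(√d_1, …, √d_n)` and `p = 2`, with both sides zero, and `H⁰ = 0`. -/
def BothZero (N i : ℕ) {n : ℕ} (d : Fin n → ℕ) : Prop := ∃ F : ℂ → ℂ, IsLFunctionOver N i d F ∧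
  analyticOrderAt F 0 = 0 ∧
  ∀ (K : Type) [Field K] [NumberField K] (s : K) (t : ℤ_[2]) (χ : G K →* ℤ_[2]ˣ), Setting K s t →
    Continuous χ → BelongsTo N i s t χ →
      dim1Over s χ (groupOf K d) = 0 ∧ dim0Over χ (groupOf K d) = 0

/-- The `L`-functions of `M_i(N)` over `ℚ` and over `ℚ(√d_1, …, √d_n)` exist and have the same order at the centre. -/
def SameOrder (N i : ℕ) {n : ℕ} (d : Fin n → ℕ) : Prop :=
  (∃ F : ℂ → ℂ, IsLFunction N i F) ∧ (∃ F : ℂ → ℂ, IsLFunctionOver N i d F) ∧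
  ∀ F F' : ℂ → ℂ, IsLFunction N i F → IsLFunctionOver N i d F' →
    analyticOrderAt F' 0 = analyticOrderAt F 0

/-- The Selmer groups over `K` and over `K(√d_1, …, √d_n)` are the same, and `H⁰ = 0`. -/
def SameSelmer (N i : ℕ) {n : ℕ} (d : Fin n → ℕ) : Prop :=
  ∀ (K : Type) [Field K] [NumberField K] (s : K) (t : ℤ_[2]) (χ : G K →* ℤ_[2]ˣ), Setting K s t →
    Continuous χ → BelongsTo N i s t χ →
      Stable s χ (groupOf K d) ∧ dim0Over χ (groupOf K d) = 0 ∧ dim0 χ = 0

/-- The matrices of the twists of `N` by all the nontrivial characters of `ℚ(√d_1, …, √d_n)` are nonsingular. -/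
def Good (N : ℕ) {n : ℕ} (d : Fin n → ℕ) : Prop :=
  ∀ T : Finset (Fin n), T.Nonempty → (R (part (N * ∏ l ∈ T, d l))).det ≠ 0

/-- The conclusions of (1) and (2), for all even weights: the formula over `ℚ(√d_1, …, √d_n)` is equivalent to the
formula over `ℚ`, and it holds, with both sides zero, if the matrix of `N` is nonsingular. -/
def Conclusions (N : ℕ) {n : ℕ} (d : Fin n → ℕ) : Prop := ∀ i : ℕ, Even i →
  SameOrder N i d ∧ SameSelmer N i d ∧ (FormulaOver N i d ↔ Formula N i) ∧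
    ((R N).det ≠ 0 → BothZero N i d)

/-- **(1) and (2)**. -/
def OverFields : Prop := ∀ N : ℕ, Class N → ∀ (n : ℕ) (d : Fin n → ℕ), (∀ l, Class (d l)) →
  Good N d → Conclusions N d

/-- Squarefree, all prime factors `1` modulo `4`. -/
def Wide (D : ℕ) : Prop := Squarefree D ∧ ∀ p : ℕ, p.Prime → p ∣ D → p % 4 = 1

/-- The `n`-tuples of elements of the class which divide `D`. -/
noncomputable def tuples (n D : ℕ) : Finset (Fin n → ℕ) := Fintype.piFinset fun _ => D.divisors.filter Class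

/-- The share of the tuples with the property `P`. -/
noncomputable def share {n : ℕ} (D : ℕ) (P : (Fin n → ℕ) → Prop) : ℝ :=
  (((tuples n D).filter P).card : ℝ) / (tuples n D).card

/-- No product of the `d_i` over a nonempty set is a square. -/
def Independent {n : ℕ} (d : Fin n → ℕ) : Prop :=
  ∀ T : Finset (Fin n), T.Nonempty → ¬ IsSquare (∏ i ∈ T, d i)

/-- **(3)** Inside the integers of `S`. -/
def Inside (S : ℕ → Prop) : Prop :=
  ∀ (M n : ℕ) (N : Fin M → ℕ), (∀ j, Class (N j)) → Function.Injective N → ∀ ε : ℝ, 0 < ε →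
    ∃ D₀ : ℕ, ∀ D : ℕ, D₀ ≤ D → S D →
      (∀ Q : Finset (Fin M),
        |share D (fun d : Fin n → ℕ => Independent d ∧ ∀ j, (Good (N j) d ↔ j ∈ Q)) -
          (κ ^ (2 ^ n - 1)) ^ Q.card * (1 - κ ^ (2 ^ n - 1)) ^ (M - Q.card)| ≤ ε) ∧
      (κ ^ (2 ^ n - 1)) ^ M - ε ≤ share D (fun d : Fin n → ℕ =>
        Independent d ∧ ∀ j, Conclusions (N j) d) ∧
      1 - (1 - κ ^ (2 ^ n - 1)) ^ M - ε ≤ share D (fun d : Fin n → ℕ =>
        Independent d ∧ ∃ j, Conclusions (N j) d)

/-- The tuple without its first element. -/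
def tail {n : ℕ} (d : Fin (n + 1) → ℕ) : Fin n → ℕ := fun l => d l.succ

/-- **(4)** The twists inside the integers of `S`. -/
def Twists (S : ℕ → Prop) : Prop :=
  ∀ (M n : ℕ) (N : Fin M → ℕ), (∀ j, Class (N j)) → Function.Injective N → ∀ ε : ℝ, 0 < ε →
    ∃ D₀ : ℕ, ∀ D : ℕ, D₀ ≤ D → S D →
      |share D (fun d : Fin (n + 1) → ℕ => Independent (tail d) ∧
        ∀ j, ∀ T : Finset (Fin n), (R (part (N j * d 0 * ∏ l ∈ T, tail d l))).det ≠ 0) -
          κ ^ (M * 2 ^ n)| ≤ ε ∧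
      κ ^ (M * 2 ^ n) - ε ≤ share D (fun d : Fin (n + 1) → ℕ => Independent (tail d) ∧
        ∀ j, ∀ i : ℕ, Even i → BothZero (part (N j * d 0)) i (tail d))

/-- **(5)** One infinite sequence of fields for finitely many base points and all even weights. -/
def InfiniteExtension : Prop :=
  ∀ B : Finset ℕ, (∀ N ∈ B, Class N) → ∃ d : ℕ → ℕ, (∀ k, Class (d k)) ∧
    (∀ T : Finset ℕ, T.Nonempty → ¬ IsSquare (∏ k ∈ T, d k)) ∧
    ∀ N ∈ B, ∀ n : ℕ, Conclusions N fun l : Fin n => d l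

/-- The number of the `D ≤ X` with the property `P`. -/
noncomputable def count (P : ℕ → Prop) (X : ℕ) : ℕ := ((Finset.Icc 1 X).filter P).card

section proof

open _root_.Q283.LP
open _root_.Q155.NL (Cl Alm)
open _root_.Q283.GS (al)
open Pool.Agent.Q274.BKC (GK val IsSel Sel B1)
open Pool.Agent.Results.MP_ec4e4b_nt.AllEvenWeights (cl_iff det_iff weight_iff sel_iff rank_eq)

lemma over_iff {K : Type} [Field K] (s : K) (χ : G K →* ℤ_[2]ˣ) (H : Subgroup (G K)) (c : H → ℚ_[2]) :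
    IsSelmerOver s χ H c ↔ SelOn s χ H c :=
  ⟨fun h => ⟨h.1, h.2.1, h.2.2.1, h.2.2.2⟩, fun h => ⟨h.cont, h.coc, h.ine, h.dec⟩⟩

lemma over_eq {K : Type} [Field K] (s : K) (χ : G K →* ℤ_[2]ˣ) (H : Subgroup (G K)) :
    selmerOver s χ H = SelO s χ H := Submodule.ext fun c => over_iff s χ H c

lemma rank_over_eq {K : Type} [Field K] (s : K) (χ : G K →* ℤ_[2]ˣ) (H : Subgroup (G K)) :
    dim1Over s χ H = Module.rank ℚ_[2] (H1fO s χ H) := by
  have key : ∀ W W' : Submodule ℚ_[2] (H → ℚ_[2]), W = W' →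
      Module.rank ℚ_[2] (W ⧸ (coboundariesOver χ H).comap W.subtype) =
      Module.rank ℚ_[2] (W' ⧸ (B1O χ H).comap W'.subtype) := by
    rintro W _ rfl
    rfl
  exact key _ _ (over_eq s χ H)

lemma field_eq {K : Type} [Field K] {n : ℕ} (d : Fin n → ℕ) :
    field K d = LF fun l => ((d l : ℕ) : K) := by
  unfold field LF
  congr 1

lemma group_eq {K : Type} [Field K] {n : ℕ} (d : Fin n → ℕ) :
    groupOf K d = (LF fun l => ((d l : ℕ) : K)).fixingSubgroup := by
  unfold groupOf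
  rw [field_eq]

lemma wide_iff (D : ℕ) : Wide D ↔ W1 D := Iff.rfl

lemma class_iff (D : ℕ) : Class D ↔ W8 D :=
  ⟨fun h => ⟨⟨h.1, h.2.1⟩, h.2.2⟩, fun h => ⟨h.1.1, h.1.2, h.2⟩⟩

lemma class_part {N : ℕ} (h : Class N) {n : ℕ} {d : Fin n → ℕ} (hd : ∀ l, Class (d l))
    (T : Finset (Fin n)) : Class (part (N * ∏ l ∈ T, d l)) := by
  have h1 := w1_sqn ((class_iff N).1 h).1 (fun l => ((class_iff _).1 (hd l)).1) T
  have h2 := sqn_mod8 ((class_iff N).1 h).1 (fun l => (class_iff _).1 (hd l)) T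
  exact (class_iff _).2 ⟨h1, h2.trans h.2.2⟩

lemma part_self {N : ℕ} (h : Squarefree N) : part N = N := sqn_of_sqf h

lemma crk_iff (N : ℕ) {n : ℕ} (T : Finset (Fin n)) (d : Fin n → ℕ) :
    (R (part (N * ∏ l ∈ T, d l))).det ≠ 0 ↔ crk 7 N T d = 0 := det_iff _

lemma good_iff {n : ℕ} (N : ℕ) (d : Fin n → ℕ) :
    Good N d ↔ ∀ T : Finset (Fin n), T.Nonempty → crk 7 N T d = 0 :=
  forall_congr' fun T => forall_congr' fun _ => crk_iff N T d

/-! ### The Galois side -/

lemma twist_data {N : ℕ} {n : ℕ} {d : Fin n → ℕ} (hd : ∀ l, Class (d l)) {i : ℕ} {K : Type}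
    [Field K] [NumberField K] {s : K} {t : ℤ_[2]} {χ : G K →* ℤ_[2]ˣ} (hc : Continuous χ)
    (hχ : BelongsTo N i s t χ) : ∃ ψ : Fin n → (G K →* ℤ_[2]ˣ), (∀ l, IsQd ((d l : ℕ) : K) (ψ l)) ∧
      ∀ T : Finset (Fin n), Continuous (χ * ∏ l ∈ T, ψ l : G K →* ℤ_[2]ˣ) ∧
        HasWeight (part (N * ∏ l ∈ T, d l)) i s t (χ * ∏ l ∈ T, ψ l) := by
  have hd0 : ∀ l, ((d l : ℕ) : K) ≠ 0 := fun l => Nat.cast_ne_zero.2 (hd l).1.ne_zero
  choose ψ hψ using fun l => exists_qd (hd0 l)
  refine ⟨ψ, hψ, fun T => ⟨cont_mul hc (cont_prodT (fun l => cont_qd (hd0 l) (hψ l)) T), ?_⟩⟩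
  refine hχ (∏ l ∈ T, d l) _ (Finset.prod_ne_zero_iff.2 fun l _ => (hd l).1.ne_zero) ?_
  have h1 := qd_prod hd0 hψ T
  rw [← Nat.cast_prod] at h1
  exact h1

lemma set_iff {K : Type} [Field K] [NumberField K] {s : K} {t : ℤ_[2]} (h : Setting K s t) :
    Module.finrank ℚ K = 2 ∧ s ^ 2 = -((7 : ℕ) : K) ∧ t ^ 2 = -((7 : ℕ) : ℤ_[2]) ∧
      (4 : ℤ_[2]) ∣ t - 3 := by
  obtain ⟨h1, h2, h3, h4⟩ := h
  exact ⟨h1, by push_cast; exact h2, by push_cast; exact h3, h4⟩

lemma self_weight {N : ℕ} (hN : Class N) {i : ℕ} {K : Type} [Field K] [NumberField K] {s : K}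
    {t : ℤ_[2]} {χ : G K →* ℤ_[2]ˣ} (hχ : BelongsTo N i s t χ) : HasWeight N i s t χ := by
  have h1 := hχ 1 1 one_ne_zero (by
    rw [Nat.cast_one]
    exact qd_one)
  have h2 : (χ * 1 : G K →* ℤ_[2]ˣ) = χ := MonoidHom.ext fun σ => mul_one _
  rwa [mul_one, part_self hN.1, h2] at h1

/-- the invariants over the fields -/
lemma inv_zero {N : ℕ} (hN : Class N) {n : ℕ} {d : Fin n → ℕ} (hd : ∀ l, Class (d l)) {i : ℕ}
    (hi : Even i) {K : Type} [Field K] [NumberField K] {s : K} {t : ℤ_[2]} {χ : G K →* ℤ_[2]ˣ}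
    (hst : Setting K s t) (hc : Continuous χ) (hχ : BelongsTo N i s t χ) :
    dim0Over χ (groupOf K d) = 0 ∧ dim0 χ = 0 := by
  obtain ⟨hK, hs, ht, ht4⟩ := set_iff hst
  have hd0 : ∀ l, ((d l : ℕ) : K) ≠ 0 := fun l => Nat.cast_ne_zero.2 (hd l).1.ne_zero
  obtain ⟨ψ, hψ, hT⟩ := twist_data (n := n) (d := d) hd hc hχ
  constructor
  · unfold dim0Over
    rw [rank_zero_iff_forall_zero]
    rintro ⟨x, hx⟩
    refine Subtype.ext (inv_multi hd0 hψ (χ := χ) (fun T x hx => ?_) (x := x) fun σ hσ => ?_)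
    · exact Pool.Agent.Q274.BKC.h0 K 7 _ i s t (χ * ∏ l ∈ T, ψ l) (by norm_num) rfl
        ((cl_iff _).1 (class_part hN hd T)) hs hK ht ht4 (hT T).1 (weight_iff hi (hT T).2) x hx
    · have h1 : σ ∈ groupOf K d := by
        rw [group_eq]
        exact hσ
      exact hx ⟨σ, h1⟩
  · unfold dim0
    rw [rank_zero_iff_forall_zero]
    rintro ⟨x, hx⟩
    exact Subtype.ext (Pool.Agent.Q274.BKC.h0 K 7 N i s t χ (by norm_num) rfl
      ((cl_iff _).1 hN) hs hK ht ht4 hc (weight_iff hi (self_weight hN hχ)) x hx)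

/-- the Selmer groups over the fields -/
lemma sel_over {N : ℕ} (hN : Class N) {n : ℕ} {d : Fin n → ℕ} (hd : ∀ l, Class (d l))
    (hG : Good N d) {i : ℕ}
    (hi : Even i) {K : Type} [Field K] [NumberField K] {s : K} {t : ℤ_[2]} {χ : G K →* ℤ_[2]ˣ}
    (hst : Setting K s t) (hc : Continuous χ) (hχ : BelongsTo N i s t χ) :
    Stable s χ (groupOf K d) ∧ ((R N).det ≠ 0 → dim1Over s χ (groupOf K d) = 0) := by
  obtain ⟨hK, hs, ht, ht4⟩ := set_iff hst
  have hd0 : ∀ l, ((d l : ℕ) : K) ≠ 0 := fun l => Nat.cast_ne_zero.2 (hd l).1.ne_zero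
  obtain ⟨ψ, hψ, hT⟩ := twist_data (n := n) (d := d) hd hc hχ
  have hB : ∀ T : Finset (Fin n), Module.rank ℚ_[2] (Pool.Agent.Q274.BKC.H1f s (χ * ∏ l ∈ T, ψ l)) ≤
      ((2 * Pool.Agent.Q274.BKC.corank 7 (part (N * ∏ l ∈ T, d l)) : ℕ) : Cardinal) := by
    intro T
    exact Pool.Agent.Q274.BKC.main K 7 _ i s t (χ * ∏ l ∈ T, ψ l) (by norm_num) rfl
        ((cl_iff _).1 (class_part hN hd T)) hs hK ht ht4 (hT T).1 (weight_iff hi (hT T).2)
  have hZ : ∀ T : Finset (Fin n), Pool.Agent.Q274.BKC.corank 7 (part (N * ∏ l ∈ T, d l)) = 0 →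
      ∀ x : Pool.Agent.Q274.BKC.H1f s (χ * ∏ l ∈ T, ψ l), x = 0 := by
    intro T h0
    have h1 := hB T
    rw [h0, mul_zero, Nat.cast_zero] at h1
    exact rank_zero_iff_forall_zero.1 (le_antisymm h1 zero_le)
  have hrank : Module.rank ℚ_[2] (H1fO s χ (LF fun l => ((d l : ℕ) : K)).fixingSubgroup) ≤
      ((∑ T : Finset (Fin n), 2 * Pool.Agent.Q274.BKC.corank 7 (part (N * ∏ l ∈ T, d l)) : ℕ) :
        Cardinal) := rank_multi hd0 hψ hB
  refine ⟨?_, fun h0 => ?_⟩
  · have h1 := bij_multi hd0 hψ (s := s) (χ := χ) fun T hT => hZ T ((det_iff _).1 (hG T hT))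
    refine ⟨fun c hcS => ?_, ?_⟩
    · rw [over_iff] at hcS
      have h2 : ∀ (H H' : Subgroup (G K)), H = H' →
          (∀ c : H → ℚ_[2], SelOn s χ H c → ∃ C : G K → ℚ_[2],
            IsSel s χ C ∧ ∃ y : ℚ_[2], ∀ σ : H, c σ = C σ + (val χ σ - 1) * y) →
          (∀ c : H' → ℚ_[2], SelOn s χ H' c → ∃ C : G K → ℚ_[2],
            IsSel s χ C ∧ ∃ y : ℚ_[2], ∀ σ : H', c σ = C σ + (val χ σ - 1) * y) := by
        rintro H _ rfl h
        exact h
      obtain ⟨C, hC, y, hy⟩ := h2 _ _ (group_eq d).symm (fun c hc => surj_expl h1.2 hc) c hcS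
      exact ⟨C, (sel_iff s χ C).2 hC, y, hy⟩
    · have h4 : dim1 s χ = Module.rank ℚ_[2] (H1f s χ) := rfl
      rw [h4, rank_over_eq, group_eq, rank_eq]
      exact (LinearEquiv.ofBijective _ h1).rank_eq.symm
  · have h1 : ∑ T : Finset (Fin n), 2 * Pool.Agent.Q274.BKC.corank 7 (part (N * ∏ l ∈ T, d l)) = 0 := by
      refine Finset.sum_eq_zero fun T _ => ?_
      by_cases hT : T.Nonempty
      · rw [(det_iff _).1 (hG T hT), mul_zero]
      · rw [Finset.not_nonempty_iff_eq_empty.1 hT, Finset.prod_empty, mul_one, part_self hN.1,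
          (det_iff _).1 h0, mul_zero]
    rw [h1, Nat.cast_zero] at hrank
    rw [rank_over_eq, group_eq]
    exact le_antisymm hrank zero_le

/-! ### The L-functions -/

lemma ps_eq (p : ℕ) : powerSum p = Pool.Agent.Q274.BKL.uu p := by
  funext n
  induction n using Nat.twoStepInduction with
  | zero => rfl
  | one => rfl
  | more n h1 h2 =>
    rw [powerSum, Pool.Agent.Q274.BKL.uu, h1, h2]
    rfl

lemma ef_eq (D i : ℕ) (s : ℂ) (p : ℕ) : eulerFactor D i s p = Pool.Agent.Q274.BKL.ef D i s p := by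
  unfold Pool.Agent.Q274.BKL.ef eulerFactor
  simp only [ps_eq]

lemma exists_L {D : ℕ} (hD : Class D) (i : ℕ) : ∃ F : ℂ → ℂ, IsLFunction D i F := by
  obtain ⟨F, g1, g2⟩ := Pool.Agent.Q283.BKE.entire_ep ((cl_iff D).1 hD) i
  refine ⟨F, g1, fun s hs => ?_⟩
  simp only [ef_eq]
  exact g2 s hs

lemma exists_L_ne {D : ℕ} (hD : Class D) (hR : (R D).det ≠ 0) {i : ℕ} (hi : Even i) :
    ∃ F : ℂ → ℂ, IsLFunction D i F ∧ F 0 ≠ 0 := by
  obtain ⟨F, g1, g2, g3⟩ := Pool.Agent.Q274.BKL.central_ep ((cl_iff D).1 hD) ((det_iff D).1 hR) hi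
  refine ⟨F, ⟨g1, fun s hs => ?_⟩, g3⟩
  simp only [ef_eq]
  exact g2 s hs

/-- an entire function is determined by its values for `Re s > 1/2` -/
lemma entire_unique {F F' : ℂ → ℂ} (h1 : Differentiable ℂ F) (h2 : Differentiable ℂ F')
    (h : ∀ s : ℂ, 1 / 2 < s.re → F s = F' s) : F = F' := by
  have e1 : AnalyticOnNhd ℂ F Set.univ := fun z _ => h1.analyticAt z
  have e2 : AnalyticOnNhd ℂ F' Set.univ := fun z _ => h2.analyticAt z
  refine AnalyticOnNhd.eq_of_eventuallyEq e1 e2 (z₀ := 1) ?_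
  have h3 : IsOpen {s : ℂ | 1 / 2 < s.re} := isOpen_lt continuous_const Complex.continuous_re
  filter_upwards [h3.mem_nhds (by
    show (1 / 2 : ℝ) < (1 : ℂ).re
    rw [Complex.one_re]
    norm_num)] with s hs
  exact h s hs

lemma L_unique {N i : ℕ} {F F' : ℂ → ℂ} (h1 : IsLFunction N i F) (h2 : IsLFunction N i F') :
    F = F' := entire_unique h1.1 h2.1 fun s hs => (h1.2 s hs).unique (h2.2 s hs)

lemma L_unique' {N i n : ℕ} {d : Fin n → ℕ} {F F' : ℂ → ℂ} (h1 : IsLFunctionOver N i d F)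
    (h2 : IsLFunctionOver N i d F') : F = F' :=
  entire_unique h1.1 h2.1 fun s hs => (h1.2 s hs).unique (h2.2 s hs)

lemma order_prod {J : Type} (A : Finset J) (f : J → ℂ → ℂ) (z : ℂ)
    (hf : ∀ i ∈ A, AnalyticAt ℂ (f i) z) :
    AnalyticAt ℂ (fun s => ∏ i ∈ A, f i s) z ∧
      analyticOrderAt (fun s => ∏ i ∈ A, f i s) z = ∑ i ∈ A, analyticOrderAt (f i) z := by
  induction A using Finset.induction_on with
  | empty =>
    have h1 : AnalyticAt ℂ (fun _ : ℂ => (1 : ℂ)) z := analyticAt_const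
    simp only [Finset.prod_empty, Finset.sum_empty]
    exact ⟨h1, h1.analyticOrderAt_eq_zero.2 one_ne_zero⟩
  | insert a A ha ih =>
    obtain ⟨h1, h2⟩ := ih fun i hi => hf i (Finset.mem_insert_of_mem hi)
    have h3 := hf a (Finset.mem_insert_self a A)
    have e : (fun s => ∏ i ∈ insert a A, f i s) = f a * fun s => ∏ i ∈ A, f i s := by
      funext s
      rw [Finset.prod_insert ha]
      rfl
    rw [e]
    exact ⟨h3.mul h1, by rw [analyticOrderAt_mul h3 h1, h2, Finset.sum_insert ha]⟩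

lemma over_L {N i n : ℕ} {d : Fin n → ℕ} {f : Finset (Fin n) → ℂ → ℂ}
    (hf : ∀ T, IsLFunction (part (N * ∏ l ∈ T, d l)) i (f T)) :
    IsLFunctionOver N i d fun s => ∏ T, f T s := by
  refine ⟨Differentiable.fun_finset_prod fun T _ => (hf T).1, fun s hs => ?_⟩
  have h1 := hasProd_prod (s := (Finset.univ : Finset (Finset (Fin n))))
    fun T _ => (hf T).2 s hs
  refine Eq.mp (congrArg (fun g => HasProd g (∏ T, f T s)) (funext fun p => ?_)) h1
  unfold eulerOver
  rw [Finset.prod_inv_distrib]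

lemma orders {N : ℕ} (hN : Class N) {n : ℕ} {d : Fin n → ℕ} (hd : ∀ l, Class (d l))
    (hG : Good N d) {i : ℕ} (hi : Even i) : ∃ F F' : ℂ → ℂ, IsLFunction N i F ∧
      IsLFunctionOver N i d F' ∧ analyticOrderAt F' 0 = analyticOrderAt F 0 ∧
      ((R N).det ≠ 0 → analyticOrderAt F' 0 = 0) := by
  have hex : ∀ T : Finset (Fin n), ∃ F : ℂ → ℂ, IsLFunction (part (N * ∏ l ∈ T, d l)) i F ∧
      (T.Nonempty → F 0 ≠ 0) ∧ ((R (part (N * ∏ l ∈ T, d l))).det ≠ 0 → F 0 ≠ 0) := by
    intro T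
    by_cases h0 : (R (part (N * ∏ l ∈ T, d l))).det ≠ 0
    · obtain ⟨F, h1, h2⟩ := exists_L_ne (class_part hN hd T) h0 hi
      exact ⟨F, h1, fun _ => h2, fun _ => h2⟩
    · obtain ⟨F, h1⟩ := exists_L (class_part hN hd T) i
      exact ⟨F, h1, fun hT => absurd (hG T hT) h0, fun h => absurd h h0⟩
  choose f h1 h2 h3 using hex
  have e0 : part (N * ∏ l ∈ (∅ : Finset (Fin n)), d l) = N := by
    rw [Finset.prod_empty, mul_one, part_self hN.1]
  have ho : ∀ T : Finset (Fin n), T ≠ ∅ → analyticOrderAt (f T) 0 = 0 := fun T hT =>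
    ((h1 T).1.analyticAt 0).analyticOrderAt_eq_zero.2 (h2 T (Finset.nonempty_of_ne_empty hT))
  obtain ⟨-, o1⟩ := order_prod Finset.univ f 0 fun T _ => (h1 T).1.analyticAt 0
  have o2 : analyticOrderAt (fun s => ∏ T, f T s) 0 = analyticOrderAt (f ∅) 0 := by
    rw [o1]
    exact Finset.sum_eq_single ∅ (fun T _ hT => ho T hT) fun h => absurd (Finset.mem_univ _) h
  have h4 := h1 ∅
  have h5 := h3 ∅
  rw [e0] at h4 h5
  refine ⟨f ∅, fun s => ∏ T, f T s, h4, over_L h1, o2, fun h0 => ?_⟩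
  rw [o2]
  exact (h4.1.analyticAt 0).analyticOrderAt_eq_zero.2 (h5 h0)

/-- (1) and (2) -/
theorem over_fields : OverFields := by
  intro N hN n d hd hG i hi
  obtain ⟨F, F', h1, h2, h3, h4⟩ := orders hN hd hG hi
  refine ⟨⟨⟨F, h1⟩, ⟨F', h2⟩, fun A A' hA hA' => ?_⟩, fun K _ _ s t χ hst hc hχ => ?_, ?_, fun h0 => ?_⟩
  · rw [L_unique hA h1, L_unique' hA' h2]
    exact h3
  · exact ⟨(sel_over hN hd hG hi hst hc hχ).1, inv_zero hN hd hi hst hc hχ⟩
  · constructor
    · rintro ⟨A, hA, hA'⟩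
      refine ⟨F, h1, fun K _ _ s t χ hst hc hχ => ?_⟩
      obtain ⟨r, hr, hr'⟩ := hA' K s t χ hst hc hχ
      obtain ⟨⟨-, k1⟩, -⟩ := sel_over hN hd hG hi hst hc hχ
      obtain ⟨k2, k3⟩ := inv_zero hN hd hi hst hc hχ
      refine ⟨r, ?_, ?_⟩
      · rw [← h3, ← L_unique' hA h2]
        exact hr
      · rw [k1, k2] at hr'
        rw [hr', k3]
    · rintro ⟨A, hA, hA'⟩
      refine ⟨F', h2, fun K _ _ s t χ hst hc hχ => ?_⟩
      obtain ⟨r, hr, hr'⟩ := hA' K s t χ hst hc hχ
      obtain ⟨⟨-, k1⟩, -⟩ := sel_over hN hd hG hi hst hc hχ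
      obtain ⟨k2, k3⟩ := inv_zero hN hd hi hst hc hχ
      refine ⟨r, ?_, ?_⟩
      · rw [h3, ← L_unique hA h1]
        exact hr
      · rw [k3] at hr'
        rw [k1, k2, hr']
  · refine ⟨F', h2, h4 h0, fun K _ _ s t χ hst hc hχ => ?_⟩
    exact ⟨(sel_over hN hd hG hi hst hc hχ).2 h0, (inv_zero hN hd hi hst hc hχ).1⟩

/-! ### The laws -/

lemma tuples_eq (n D : ℕ) : tuples n D = I8 n D := by
  unfold tuples I8
  refine congrArg (fun s : Finset ℕ => Fintype.piFinset fun _ : Fin n => s) ?_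
  exact Finset.filter_congr fun d _ => class_iff d

lemma share_eq {n D : ℕ} (P : (Fin n → ℕ) → Prop) :
    share D P = cE (I8 n D) P / (I8 n D).card := by
  unfold share
  rw [tuples_eq]
  rfl

lemma abs_share {n D : ℕ} (hD : D ≠ 0) {P : (Fin n → ℕ) → Prop} {w ε : ℝ}
    (h : |cE (I8 n D) P - w * (I8 n D).card| ≤ ε * (I8 n D).card) : |share D P - w| ≤ ε := by
  have hpos := I8_pos (n := n) hD
  have h5 : share D P - w = (cE (I8 n D) P - w * (I8 n D).card) / ((I8 n D).card : ℝ) := by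
    rw [share_eq]
    field_simp
  rw [h5, abs_div, abs_of_pos hpos, div_le_iff₀ hpos]
  exact h

lemma share_le {n D : ℕ} (hD : D ≠ 0) {P : (Fin n → ℕ) → Prop} {ε : ℝ}
    (h : cE (I8 n D) P ≤ ε * (I8 n D).card) : share D P ≤ ε := by
  rw [share_eq, div_le_iff₀ (I8_pos (n := n) hD)]
  exact h

lemma share_mono {n D : ℕ} {P Q : (Fin n → ℕ) → Prop} (h : ∀ d ∈ I8 n D, P d → Q d) :
    share D P ≤ share D Q := by
  rw [share_eq, share_eq]
  exact div_le_div_of_nonneg_right (cE_mono h) (Nat.cast_nonneg _)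

lemma share_or {n D : ℕ} (P Q : (Fin n → ℕ) → Prop) :
    share D (fun d => P d ∨ Q d) ≤ share D P + share D Q := by
  rw [share_eq, share_eq, share_eq, ← add_div]
  exact div_le_div_of_nonneg_right (cE_or P Q) (Nat.cast_nonneg _)

lemma share_not {n D : ℕ} (hD : D ≠ 0) (P : (Fin n → ℕ) → Prop) :
    share D P = 1 - share D fun d => ¬ P d := by
  have hpos := I8_pos (n := n) hD
  have h1 := cE_not (I := I8 n D) P
  rw [share_eq, share_eq, eq_sub_iff_add_eq, ← add_div, h1, div_self hpos.ne']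

lemma κ_eq : al 0 = κ := by
  have h1 : al 0 = Y703.CQ.c2 * Y697.PQ.cf 0 := rfl
  rw [h1, show Y697.PQ.cf 0 = 1 from rfl, mul_one]
  rfl

lemma κ_bd : 0.4194 < κ ∧ κ < 0.4195 := Pool.Agent.Q274.BKC.kappa_bounds

lemma class_of {n D : ℕ} (hD : D ≠ 0) {d : Fin n → ℕ} (h : d ∈ I8 n D) (l : Fin n) : Class (d l) :=
  (class_iff _).2 ((mem_I8 hD).1 h l).1

lemma inside_of {S : ℕ → Prop} (h : Laws 7 S) : Inside S := by
  intro M n N hN hinj ε hε
  obtain ⟨k1, k2⟩ := κ_bd
  have hW : ∀ j, W1 (N j) := fun j => ((class_iff _).1 (hN j)).1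
  obtain ⟨D₁, hD₁⟩ := eventually_atTop.1 ((h.pat M n N hW hinj (ε / 2) (by positivity)).and
    ((h.dep n (ε / 2) (by positivity)).and (eventually_ne_atTop 0)))
  refine ⟨D₁, fun D hD hS => ?_⟩
  obtain ⟨p0, p2, hD0⟩ := hD₁ D hD
  have p1 : ∀ Q : Finset (Fin M),
      |share D (fun d : Fin n → ℕ => Independent d ∧ ∀ j, (Good (N j) d ↔ j ∈ Q)) -
          (κ ^ (2 ^ n - 1)) ^ Q.card * (1 - κ ^ (2 ^ n - 1)) ^ (M - Q.card)| ≤ ε / 2 := by
    intro Q
    have h3 := p0 hS Q
    rw [κ_eq] at h3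
    have h4 := abs_share hD0 h3
    have e : (fun d : Fin n → ℕ => Independent d ∧ ∀ j, (Good (N j) d ↔ j ∈ Q)) = fun d => IdN d ∧
        ∀ j, ((∀ T : Finset (Fin n), T.Nonempty → crk 7 (N j) T d = 0) ↔ j ∈ Q) := by
      funext d
      refine propext (and_congr Iff.rfl (forall_congr' fun j => ?_))
      rw [good_iff]
    rw [e]
    exact h4
  refine ⟨fun Q => (p1 Q).trans (by linarith), ?_, ?_⟩
  · have h3 := (abs_le.1 (p1 Finset.univ)).1
    rw [Finset.card_univ, Fintype.card_fin, Nat.sub_self, pow_zero, mul_one] at h3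
    have h4 : share D (fun d : Fin n → ℕ => Independent d ∧ ∀ j, (Good (N j) d ↔ j ∈ Finset.univ)) ≤
        share D (fun d : Fin n → ℕ => Independent d ∧ ∀ j, Conclusions (N j) d) := by
      refine share_mono fun d hd hdP => ⟨hdP.1, fun j => ?_⟩
      exact over_fields (N j) (hN j) n d (class_of hD0 hd) ((hdP.2 j).2 (Finset.mem_univ j))
    linarith
  · have h3 := (abs_le.1 (p1 ∅)).2
    rw [Finset.card_empty, pow_zero, one_mul, Nat.sub_zero] at h3
    have h4 := share_not (n := n) hD0 (fun d : Fin n → ℕ => Independent d ∧ ∃ j, Conclusions (N j) d)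
    have h5 : share D (fun d : Fin n → ℕ => ¬ (Independent d ∧ ∃ j, Conclusions (N j) d)) ≤
        share D (fun d : Fin n → ℕ => Independent d ∧ ∀ j, (Good (N j) d ↔ j ∈ (∅ : Finset (Fin M)))) +
        share D (fun d : Fin n → ℕ => ¬ Independent d) := by
      refine le_trans (share_mono fun d hd hdP => ?_) (share_or _ _)
      by_cases hI : Independent d
      · refine Or.inl ⟨hI, fun j => iff_of_false (fun hG => hdP ⟨hI, j, ?_⟩) (Finset.notMem_empty j)⟩
        exact over_fields (N j) (hN j) n d (class_of hD0 hd) hG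
      · exact Or.inr hI
    have h6 : share D (fun d : Fin n → ℕ => ¬ Independent d) ≤ ε / 2 := share_le hD0 (p2 hS)
    linarith

lemma twists_of {S : ℕ → Prop} (h : Laws 7 S) : Twists S := by
  intro M n N hN hinj ε hε
  have hW : ∀ j, W1 (N j) := fun j => ((class_iff _).1 (hN j)).1
  obtain ⟨D₁, hD₁⟩ := eventually_atTop.1 ((tw_all h (n := n) N hW hinj hε).and
    (eventually_ne_atTop 0))
  refine ⟨D₁, fun D hD hS => ?_⟩
  obtain ⟨p0, hD0⟩ := hD₁ D hD
  have h3 := p0 hS
  rw [κ_eq] at h3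
  have h4 := abs_share hD0 h3
  have e : (fun d : Fin (n + 1) → ℕ => Independent (tail d) ∧
      ∀ j, ∀ T : Finset (Fin n), (R (part (N j * d 0 * ∏ l ∈ T, tail d l))).det ≠ 0) =
      fun d => IdN (fun l : Fin n => d l.succ) ∧ ∀ j, ∀ T : Finset (Fin n),
        Pool.Agent.Q274.BKC.corank 7 (sqn (N j * d 0 * ∏ l ∈ T, d l.succ)) = 0 := by
    funext d
    refine propext (and_congr Iff.rfl (forall_congr' fun j => forall_congr' fun T => ?_))
    exact det_iff _
  have h5 : |share D (fun d : Fin (n + 1) → ℕ => Independent (tail d) ∧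
      ∀ j, ∀ T : Finset (Fin n), (R (part (N j * d 0 * ∏ l ∈ T, tail d l))).det ≠ 0) -
        κ ^ (M * 2 ^ n)| ≤ ε := by
    rw [e]
    exact h4
  refine ⟨h5, ?_⟩
  have h6 : share D (fun d : Fin (n + 1) → ℕ => Independent (tail d) ∧
      ∀ j, ∀ T : Finset (Fin n), (R (part (N j * d 0 * ∏ l ∈ T, tail d l))).det ≠ 0) ≤
      share D (fun d : Fin (n + 1) → ℕ => Independent (tail d) ∧
        ∀ j, ∀ i : ℕ, Even i → BothZero (part (N j * d 0)) i (tail d)) := by
    refine share_mono fun d hd hdP => ⟨hdP.1, fun j i hi => ?_⟩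
    have hC : ∀ l, Class (d l) := class_of hD0 hd
    have hN0 : Class (part (N j * d 0)) := by
      have h7 := class_part (hN j) hC {0}
      rwa [Finset.prod_singleton] at h7
    have hne : N j * d 0 ≠ 0 := mul_ne_zero (hN j).1.ne_zero (hC 0).1.ne_zero
    have hdet : ∀ T : Finset (Fin n),
        (R (part (part (N j * d 0) * ∏ l ∈ T, tail d l))).det ≠ 0 := by
      intro T
      have h8 : part (part (N j * d 0) * ∏ l ∈ T, tail d l) = part (N j * d 0 * ∏ l ∈ T, tail d l) :=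
        sqn_sqn hne (Finset.prod_ne_zero_iff.2 fun l _ => (hC l.succ).1.ne_zero)
      rw [h8]
      exact hdP.2 j T
    refine (over_fields _ hN0 n (tail d) (fun l => hC l.succ) (fun T _ => hdet T) i hi).2.2.2 ?_
    have h9 := hdet ∅
    rwa [Finset.prod_empty, mul_one, part_self hN0.1] at h9
  linarith [(abs_le.1 h5).1]

lemma inf_of {S : ℕ → Prop} (hS : Alm (fun _ => True) S) (h : Laws 7 S) : InfiniteExtension := by
  intro B hB
  obtain ⟨d, h1, h2, h3⟩ := inf_seq hS h B fun N hN => ((class_iff _).1 (hB N hN)).1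
  refine ⟨d, fun k => (class_iff _).2 (h1 k), h2, fun N hN n => ?_⟩
  refine over_fields N (hB N hN) n _ (fun l => (class_iff _).2 (h1 l)) fun T hT => ?_
  have h4 := h3 N hN (T.map Fin.valEmbedding) (Finset.map_nonempty.2 hT)
  rw [Finset.prod_map] at h4
  exact (det_iff _).2 h4

end proof

open _root_.Q283.LP in
open _root_.Q155.NL (Cl Alm) in
/-- **The formula of Bloch and Kato for all even weights over the number fields inside almost every integer.** -/
theorem result : OverFields ∧ (∃ S : ℕ → Prop,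
      Tendsto (fun X : ℕ => (count S X : ℝ) / X) atTop (𝓝 1) ∧
      Tendsto (fun X : ℕ => (count (fun D => Wide D ∧ S D) X : ℝ) / count Wide X) atTop (𝓝 1) ∧
      Inside S ∧ Twists S) ∧ InfiniteExtension ∧ 0.4194 < κ ∧ κ < 0.4195 := by
  obtain ⟨S, hS, hS', hL⟩ := main8
  have hL7 := hL 7 (by norm_num) rfl
  refine ⟨over_fields, ⟨S, ?_, ?_, inside_of hL7, twists_of hL7⟩, inf_of hS hL7, κ_bd⟩
  · have h1 := Q155.NL.tendsto_of_alm (C := fun _ => True) ⟨1, le_rfl, trivial⟩ hS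
    refine h1.congr fun X => ?_
    have h2 : Q155.NL.cnt (fun _ => True) X = X := by
      have h0 : Q155.NL.cs (fun _ => True) X = Finset.Icc 1 X := by
        ext D
        rw [Q155.NL.mem_cs, Finset.mem_Icc]
        exact ⟨fun h => h.1, fun h => ⟨h, trivial⟩⟩
      unfold Q155.NL.cnt
      rw [h0, Nat.card_Icc]
      omega
    rw [h2]
    congr 2
    unfold Q155.NL.cnt Q155.NL.cs count
    congr 1
    ext D
    simp
  · have h1 := Q155.NL.tendsto_of_alm (C := W1) ⟨1, le_rfl, squarefree_one, fun p hp h =>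
      absurd (Nat.dvd_one.1 h) hp.one_lt.ne'⟩ hS'
    refine h1.congr fun X => ?_
    unfold Q155.NL.cnt Q155.NL.cs count
    congr 3

end Pool.Agent.Results.MP_ec4e4b_nt.AllEvenWeightsInsideDivisors
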