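import Mathlib
import Pool.Agent.Q155.EB.Main
import Pool.Agent.Q155.BK.Tw

/-!
# The order of vanishing formula for `h¹(E)(1) ⊗ A`, `A` any Artin motive split by
# `ℚ(ω, ∛ℓ_1, …, ∛ℓ_k)`

`E_D : y² + D y = x³`, a curve over `ℚ`, `3`-isogenous to `x³ + y³ = D`. Let `D` be a finite
non-empty family of cube-free numbers prime to `3`, not `±1` modulo `9`, such that exactly one prime
`q = 2` modulo `3` divides each of them, for which the conjecture of Birch and Swinnerton-Dyer is known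
over `ℚ` in the following form (`Conclusion`): `E_{D_i}(ℚ)` is finite, `Ш(E_{D_i}/ℚ)[3^∞] = 0`,
`L(E_{D_i}, 1) ≠ 0`, and the `3`-part of the formula holds. (If `D_i = q` or `q²`, `q = 2, 5` modulo `9`
a prime, this is true.)

There is a set `T` of finite sequences `(ℓ_1, …, ℓ_k)` of distinct primes `= 1` modulo `9`, closed
under initial segments, containing the empty sequence, such that:

* **All Artin motives.** For `(ℓ_1, …, ℓ_k)` in `T` let `F = ℚ(ω, ∛ℓ_1, …, ∛ℓ_k)`, a Galois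
  extension of `ℚ` of degree `2 · 3 ^ k`, with a non-commutative Galois group `G` if `k > 0`. For every
  `i` and EVERY Artin motive `A` over `ℚ` split by `F` (a homomorphism `ρ` from `G` to the integral
  matrices of size `n`, `n` arbitrary; every rational representation of `G` contains a stable lattice)
  the formula of the problem holds for `p = 3` and the motive `M = h¹(E_{D_i})(1) ⊗ A` over `ℚ`, of rank
  `2 n`: the polynomials `P_p` are in `ℚ[T]`, `L(s, M)` is entire, and its order of vanishing at `s = 0`,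
  `H⁰(ℚ, M_3)` and `H¹_f(ℚ, M_3)` are zero. (`M` is polarized, because `h¹(E)(1)` is, and because `ρ` is
  isomorphic to its dual over `ℚ`. The motives `h¹(E_{D_i})(1)` over all subfields of `F` are among
  them, with `ρ` a permutation representation.)
* **Branching law.** For every sequence in `T` the proportion of the primes `ℓ` such that
  `(ℓ_1, …, ℓ_k, ℓ)` is in `T`, among the primes `= 1` modulo `9` that do not divide the `D_i` and
  are not among the `ℓ_j` (a third of the primes `= 1` modulo `3`), exists and is POSITIVE; it is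
  `(2 / 3) ^ m / 9 ^ k` if every `D_i` is the power of a prime, with `m` the number of the primes
  dividing the `D_i`.
* **Infinite extensions.** There are primes `ℓ_1 < ℓ_2 < …` all of whose initial segments are in `T`:
  the formula holds for all the motives `h¹(E_{D_i})(1) ⊗ A` with `A` split by
  `ℚ(ω, ∛ℓ_1, ∛ℓ_2, …)`.

The representation `M_3` is `V_3 E ⊗ ℤ^n`, with the diagonal action. An element of `V_3 E` is described
by a sequence of points (`IsV 3`, by helper667), an element of `M_3` by `n` such sequences.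
The local condition (`IsLocal`): the restriction of a cocycle to the absolute Galois group of the
completion `F_w` of `F` at every finite place `w` has values in `(V_3 E)^n`, and each of its coordinates is
in the image of the Kummer map (`LocKum`, by helper667), that is, it is in `H¹_f(F_w, M_3)`. This is the
condition of the problem: for a finite extension `F_w/ℚ_p` a class is in `H¹_f(ℚ_p, M_3)` if and only if
its restriction is in `H¹_f(F_w, M_3)`, because the restriction maps `H¹(ℚ_p, M_3 ⊗ B_crys) →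
H¹(F_w, M_3 ⊗ B_crys)` and `H¹(I_p, M_3) → H¹(I_w, M_3)` are injective.

The Euler factors: let `p` be a prime, `P` a prime ideal of `F` above `p` with inertia group `I`. If
`p` does not divide `3 D` then `E_D` has good reduction at `p`, `M_ℓ^I = V_ℓ E ⊗ ρ^I`, the geometric
Frobenius element has the characteristic polynomial `X² - (a_p/p) X + 1/p` on `V_ℓ E`, and
`P_p(T) = det(1 - (a_p/p) Φ T + (1/p) Φ² T²)`, where `Φ` is the operator which is `ρ(Frob_p⁻¹)` on `ρ^I`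
and zero on the complement of `ρ^I`: the mean of `ρ(σ⁻¹)` over all Frobenius elements `σ` at `P`
(`frob`). If `p` divides `3 D` then `P_p = 1`: `F/ℚ` is unramified at `p ≠ 3`, where the
inertia group acts on `V_ℓ E` by two nontrivial characters of order `3`; at `p = 3` all the `ℓ_j` are
cubes, and neither `E_D` nor its twist by `ℚ(ω)`, which is isogenous to it, has good reduction.
-/

set_option autoImplicit false

open scoped Classical

namespace Pool.Agent.Results.MP_ec4e4b_nt.ArtinMotiveTwists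

open NumberField IsDedekindDomain Polynomial
open Pool.Agent.Y703.CT (WD EQ IsL ThreeUnit tamProd)
open Pool.Agent.TH841.SH.D (Sha Gal act)
open Pool.Agent.W97.MT (IsGloballyMinimal)
open Pool.Agent.Y700 (Omega)
open Pool.Agent.Y667.BKP (PSeq IsV LocKum)

/-- The curve `E_N : y² + N y = x³` over `ℚ`. -/
def curve (N : ℕ) : WeierstrassCurve ℚ := ⟨0, 0, N, 0, 0⟩

/-- `D` is prime to `3` and cube-free, and exactly one prime `q = 2` modulo `3` divides it. -/
def Base (D : ℕ) : Prop :=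
  D ≠ 0 ∧ ¬ 3 ∣ D ∧ (∀ p : ℕ, p.Prime → ¬ p ^ 3 ∣ D) ∧
    ∃ q : ℕ, q.Prime ∧ q % 3 = 2 ∧ q ∣ D ∧ ∀ p : ℕ, p.Prime → p ∣ D → p ≠ q → p % 3 = 1

/-- The conclusion for `E_D : y² + D y = x³` over `ℚ` (`WD D`, over `ℚ` it is `EQ (WD D)`): the
equation is globally minimal, `E_D(ℚ)` is finite, `Ш(E_D/ℚ)` has no element of order `3`, and there is
an entire function `f` which is the `L`-series for `Re s > 3/2` (`IsL`), with `f 1 ≠ 0` and
`f 1 = u Ω ∏ c_p / |E_D(ℚ)_tors|²` with a unit `u` at `3`. -/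
def Conclusion (D : ℕ) : Prop :=
  IsGloballyMinimal (WD D) ∧
  (Finite (EQ (WD D)).toAffine.Point ∧
    ∀ (n : ℕ) (x : Sha (EQ (WD D))), 3 ^ n • x = 0 → x = 0) ∧
  ∃ f : ℂ → ℂ, IsL (WD D) f ∧ f 1 ≠ 0 ∧ ∃ u : ℂ,
    f 1 = u * (((Omega (WD D) : ℝ) : ℂ) * (tamProd (WD D) : ℂ) /
      (Nat.card (AddCommGroup.torsion (EQ (WD D)).toAffine.Point) : ℂ) ^ 2) ∧ ThreeUnit u

/-- `a_p(E_N)`: `p` minus the number of the affine points of `y² + N y = x³` over `ℤ/p`. -/
noncomputable def a (N p : ℕ) : ℤ :=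
  (p : ℤ) - ((Nat.card {x : ZMod p × ZMod p // x.2 ^ 2 + (N : ZMod p) * x.2 = x.1 ^ 3} : ℕ) : ℤ)

section

variable {F : Type} [Field F] [NumberField F] {n : ℕ}

/-- `σ` is a Frobenius element at the prime ideal `P` above `p`: `σ x = x ^ p` modulo `P`. -/
def IsFrobenius (p : ℕ) (P : Ideal (𝓞 F)) (σ : F ≃ₐ[ℚ] F) : Prop := ∀ x : 𝓞 F, σ • x - x ^ p ∈ P

/-- The mean of `ρ(σ⁻¹)` over all Frobenius elements `σ` at `P`, which are a coset of the inertia group
`I` of `P`. It is `ρ(σ⁻¹)`, for any one of them, on the invariants of `I`, and zero on the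
complement of the invariants that is stable under `I`. -/
noncomputable def frob (ρ : (F ≃ₐ[ℚ] F) →* Matrix (Fin n) (Fin n) ℤ) (p : ℕ) (P : Ideal (𝓞 F)) :
    Matrix (Fin n) (Fin n) ℚ :=
  ((Finset.univ.filter fun σ : F ≃ₐ[ℚ] F => IsFrobenius p P σ).card : ℚ)⁻¹ •
    ∑ σ ∈ Finset.univ.filter (fun σ : F ≃ₐ[ℚ] F => IsFrobenius p P σ),
      (ρ σ⁻¹).map fun z : ℤ => (z : ℚ)

/-- The polynomial `P_p(T)` of `h¹(E_N)(1) ⊗ ρ`, with rational coefficients, computed with the prime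
ideal `P` above `p`: `det(1 - (a_p / p) Φ T + (1 / p) Φ² T²)`. -/
noncomputable def eulerPoly (N : ℕ) (ρ : (F ≃ₐ[ℚ] F) →* Matrix (Fin n) (Fin n) ℤ) (p : ℕ)
    (P : Ideal (𝓞 F)) : ℚ[X] :=
  if p ∣ 3 * N then 1 else
    (1 - (C ((a N p : ℚ) / (p : ℚ)) * X) • (frob ρ p P).map C +
      (C (1 / (p : ℚ)) * X ^ 2) • (frob ρ p P ^ 2).map C).det

/-- `Λ` is the function `L(s, M)`, `M = h¹(E_N)(1) ⊗ ρ`: it is entire, and for `Re s > 1/2` it is the
product of the `P_p(p^{-s})⁻¹` over all primes, for every choice of prime ideals above the primes. -/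
def IsLFunction (N : ℕ) (ρ : (F ≃ₐ[ℚ] F) →* Matrix (Fin n) (Fin n) ℤ) (Λ : ℂ → ℂ) : Prop :=
  Differentiable ℂ Λ ∧ ∀ P : Nat.Primes → Ideal (𝓞 F),
    (∀ p, (P p).IsPrime ∧ (((p : ℕ) : ℕ) : 𝓞 F) ∈ P p) → ∀ s : ℂ, 1 / 2 < s.re →
      HasProd (fun p : Nat.Primes => (aeval (((p : ℕ) : ℂ) ^ (-s)) (eulerPoly N ρ p (P p)))⁻¹) (Λ s)

/-- The restriction of `σ` to `F`, for the embedding `j` of `F` in the algebraic closure (of the
extension `F/ℚ`, which is Galois in the theorem). -/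
noncomputable def res (j : F →+* AlgebraicClosure ℚ) (σ : Gal ℚ) : F ≃ₐ[ℚ] F :=
  if h : ∃ g : F ≃ₐ[ℚ] F, ∀ x, j (g x) = σ (j x) then h.choose else 1

/-- The elements of `M_3 = V_3 E_N ⊗ ℤ^n`: the `n`-tuples of elements of `V_3 E_N`. -/
def Mem {N : ℕ} (x : Fin n → PSeq (curve N)) : Prop := ∀ i, IsV 3 (curve N) (x i)

/-- The diagonal action of `σ` on `V_3 E_N ⊗ ℤ^n`. -/
noncomputable def galAct {N : ℕ} (j : F →+* AlgebraicClosure ℚ)
    (ρ : (F ≃ₐ[ℚ] F) →* Matrix (Fin n) (Fin n) ℤ) (σ : Gal ℚ) (x : Fin n → PSeq (curve N)) :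
    Fin n → PSeq (curve N) := fun i m =>
  ∑ k, ρ (res j σ) i k • act (curve N) σ.toAlgHom (x k m)

/-- `c` is a continuous cocycle with values in `M_3`: `c (σ τ) = c σ + σ (c τ)`. -/
def IsCocycle {N : ℕ} (j : F →+* AlgebraicClosure ℚ)
    (ρ : (F ≃ₐ[ℚ] F) →* Matrix (Fin n) (Fin n) ℤ) (c : Gal ℚ → Fin n → PSeq (curve N)) : Prop :=
  (∀ i m, IsLocallyConstant fun σ => c σ i m) ∧ (∀ σ, Mem (c σ)) ∧
    ∀ (σ τ : Gal ℚ) (i : Fin n) (m : ℕ), c (σ * τ) i m = c σ i m + galAct j ρ σ (c τ) i m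

/-- `c` is a coboundary: `c σ = σ x - x`. -/
def IsCoboundary {N : ℕ} (j : F →+* AlgebraicClosure ℚ)
    (ρ : (F ≃ₐ[ℚ] F) →* Matrix (Fin n) (Fin n) ℤ) (c : Gal ℚ → Fin n → PSeq (curve N)) : Prop :=
  ∃ x : Fin n → PSeq (curve N), Mem x ∧
    ∀ (σ : Gal ℚ) (i : Fin n) (m : ℕ), c σ i m = galAct j ρ σ x i m - x i m

variable (F) in
/-- The local conditions at the finite places `w` of `F`. -/
def IsLocal {N : ℕ} (c : Gal ℚ → Fin n → PSeq (curve N)) : Prop :=
  ∀ (w : HeightOneSpectrum (𝓞 F)) (i : Fin n),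
    LocKum 3 (curve N) (w.adicCompletion F) fun σ => c σ i

/-- `H⁰(ℚ, M_3) = 0` for `M = h¹(E_N)(1) ⊗ ρ`. -/
def H0Zero (N : ℕ) (j : F →+* AlgebraicClosure ℚ)
    (ρ : (F ≃ₐ[ℚ] F) →* Matrix (Fin n) (Fin n) ℤ) : Prop :=
  ∀ x : Fin n → PSeq (curve N), Mem x → (∀ σ i m, galAct j ρ σ x i m = x i m) → ∀ i m, x i m = 0

/-- `H¹_f(ℚ, M_3) = 0` for `M = h¹(E_N)(1) ⊗ ρ`. -/
def H1fZero (N : ℕ) (j : F →+* AlgebraicClosure ℚ)
    (ρ : (F ≃ₐ[ℚ] F) →* Matrix (Fin n) (Fin n) ℤ) : Prop :=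
  ∀ c : Gal ℚ → Fin n → PSeq (curve N), IsCocycle j ρ c → IsLocal F c → IsCoboundary j ρ c

end

/-- The formula of the problem for `p = 3` and ALL the motives `M = h¹(E_N)(1) ⊗ A`, `A` an Artin
motive over `ℚ` split by `F`, with both sides zero: `L(s, M)` is entire and its order of vanishing at
`s = 0` is zero, and `H⁰(ℚ, M_3)` and `H¹_f(ℚ, M_3)` are zero. -/
def Formula (N : ℕ) (F : Type) [Field F] [NumberField F] : Prop :=
  ∀ (n : ℕ) (ρ : (F ≃ₐ[ℚ] F) →* Matrix (Fin n) (Fin n) ℤ),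
    (∃ Λ : ℂ → ℂ, IsLFunction N ρ Λ ∧ analyticOrderAt Λ 0 = 0) ∧
    ∀ j : F →+* AlgebraicClosure ℚ, H0Zero N j ρ ∧ H1fZero N j ρ

/-- The number of the primes `ℓ = 1` modulo `3` up to `X` with the property `S`. -/
noncomputable def count (S : ℕ → Prop) (X : ℕ) : ℕ :=
  ((Finset.range (X + 1)).filter fun l => (l.Prime ∧ l % 3 = 1) ∧ S l).card

/-- The allowed new primes. -/
def Allowed {ι : Type} (D : ι → ℕ) {k : ℕ} (l : Fin k → ℕ) (m : ℕ) : Prop :=
  m % 9 = 1 ∧ (∀ i, ¬ m ∣ D i) ∧ ∀ j, m ≠ l j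

/-- All the prime factors of the members of a family. -/
def primes {ι : Type} [Fintype ι] (N : ι → ℕ) : Finset ℕ :=
  Finset.univ.biUnion fun i => (N i).primeFactors

/-- The assertions for one sequence `(ℓ_1, …, ℓ_k)`: the `ℓ_j` are distinct primes `= 1` modulo `9` that
do not divide the `D_i`, and for `F = ℚ(ω, θ_1, …, θ_k)`, `ω` a primitive cube root of unity and
`θ_j ^ 3 = ℓ_j`: `F/ℚ` is Galois of degree `2 · 3 ^ k`, its group is not commutative if `k > 0`, and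
the formula holds for all the `h¹(E_{D_i})(1) ⊗ A`, `A` any Artin motive over `ℚ` split by `F`. -/
def Settled {ι : Type} (D : ι → ℕ) (k : ℕ) (l : Fin k → ℕ) : Prop :=
  (∀ j, (l j).Prime ∧ l j % 9 = 1 ∧ ∀ i, ¬ l j ∣ D i) ∧ Function.Injective l ∧
    ∀ (F : Type) [Field F] [NumberField F] (ω : F) (θ : Fin k → F),
      ω ^ 2 + ω + 1 = 0 → (∀ j, θ j ^ 3 = (l j : F)) →
      IntermediateField.adjoin ℚ ({ω} ∪ Set.range θ) = ⊤ →
      IsGalois ℚ F ∧ Module.finrank ℚ F = 2 * 3 ^ k ∧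
      (0 < k → ∃ σ σ' : F ≃ₐ[ℚ] F, σ * σ' ≠ σ' * σ) ∧
      ∀ i, Formula (D i) F

/-- The branching law for the set `T` of sequences: for every sequence in `T` the proportion of the
primes `ℓ` such that `(ℓ_1, …, ℓ_k, ℓ)` is in `T`, among the allowed primes (a third of the primes
`= 1` modulo `3`), exists and is positive; it is `(2 / 3) ^ m / 9 ^ k` if the `D_i` are prime powers,
with `m` primes dividing them. -/
def BranchingLaw {ι : Type} [Fintype ι] (D : ι → ℕ) (T : ∀ k : ℕ, (Fin k → ℕ) → Prop) : Prop :=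
  ∀ (k : ℕ) (l : Fin k → ℕ), T k l → ∃ δ : ℝ, 0 < δ ∧
    Filter.Tendsto (fun X : ℕ => (count (Allowed D l) X : ℝ) / (count (fun _ => True) X : ℝ))
      Filter.atTop (nhds (1 / 3)) ∧
    Filter.Tendsto (fun X : ℕ =>
      (count (fun m => T (k + 1) (Fin.snoc (α := fun _ => ℕ) l m)) X : ℝ) /
        (count (Allowed D l) X : ℝ)) Filter.atTop (nhds δ) ∧
    ((∀ i, (D i).primeFactors.card = 1) → δ = (2 / 3) ^ (primes D).card / 9 ^ k)

theorem curve_eq (N : ℕ) :
    curve N = Pool.Agent.Y703.CT.EQ (Pool.Agent.Y703.CT.WD ((N : ℕ) : ℤ)) := by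
  ext <;> simp [curve, Pool.Agent.Y703.CT.WD]

theorem a_eq (N p : ℕ) :
    a N p = Pool.Agent.W97.MT.ap (Pool.Agent.Y703.CT.WD (N : ℤ)) p := by
  unfold a Pool.Agent.W97.MT.ap
  rw [Pool.Agent.Y696.CT.aff_eq]
  push_cast
  rfl

/-! ## the complex representation -/

section rep
variable {F : Type} [Field F] [NumberField F] {n : ℕ}

/-- the complex representation -/
noncomputable def cpx (ρ : (F ≃ₐ[ℚ] F) →* Matrix (Fin n) (Fin n) ℤ) :
    Representation ℂ (F ≃ₐ[ℚ] F) (Fin n → ℂ) where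
  toFun σ := Matrix.toLin' ((ρ σ).map fun z : ℤ => (z : ℂ))
  map_one' := by
    rw [map_one]
    have h : ((1 : Matrix (Fin n) (Fin n) ℤ).map fun z : ℤ => (z : ℂ)) = 1 :=
      Matrix.map_one _ Int.cast_zero Int.cast_one
    rw [h, Matrix.toLin'_one]
    rfl
  map_mul' σ τ := by
    rw [map_mul]
    have h : ((ρ σ * ρ τ).map fun z : ℤ => (z : ℂ)) =
        ((ρ σ).map fun z : ℤ => (z : ℂ)) * (ρ τ).map fun z : ℤ => (z : ℂ) :=
      Matrix.map_mul (f := Int.castRingHom ℂ)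
    rw [h, Matrix.toLin'_mul]
    rfl

theorem mean_eq (ρ : (F ≃ₐ[ℚ] F) →* Matrix (Fin n) (Fin n) ℤ) (p : ℕ) (P : Ideal (𝓞 F)) :
    Q155.EB.mean (cpx ρ) p P = Matrix.toLin' ((frob ρ p P).map fun z : ℚ => (z : ℂ)) := by
  have h1 : Q155.EB.mean (cpx ρ) p P =
      ((Finset.univ.filter fun σ : F ≃ₐ[ℚ] F => IsFrobenius p P σ).card : ℂ)⁻¹ •
        ∑ σ ∈ Finset.univ.filter (fun σ : F ≃ₐ[ℚ] F => IsFrobenius p P σ),
          Matrix.toLin' ((ρ σ⁻¹).map fun z : ℤ => (z : ℂ)) := rfl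
  rw [h1, ← map_sum, ← map_smul]
  congr 1
  ext i k
  unfold frob
  simp only [Matrix.smul_apply, Matrix.sum_apply, Matrix.map_apply, smul_eq_mul]
  push_cast
  rfl

theorem ef_eq' (N : ℕ) (ρ : (F ≃ₐ[ℚ] F) →* Matrix (Fin n) (Fin n) ℤ) (p : ℕ) (hp : p ≠ 0)
    (P : Ideal (𝓞 F)) (s : ℂ) :
    (aeval ((p : ℂ) ^ (-s)) (eulerPoly N ρ p P))⁻¹ = Q155.EB.ef N (cpx ρ) p P (s + 1) := by
  unfold eulerPoly Q155.EB.ef
  split_ifs with h
  · rw [map_one, inv_one]
  · congr 1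
    have hp0 : (p : ℂ) ≠ 0 := by exact_mod_cast hp
    have e1 : (p : ℂ) ^ (-(s + 1)) = (1 / (p : ℂ)) * (p : ℂ) ^ (-s) := by
      rw [neg_add, Complex.cpow_add _ _ hp0, Complex.cpow_neg_one]
      ring
    have e2 : (p : ℂ) ^ (1 - 2 * (s + 1)) = (1 / (p : ℂ)) * ((p : ℂ) ^ (-s)) ^ 2 := by
      have : (1 - 2 * (s + 1) : ℂ) = (-1) + (-s + -s) := by ring
      rw [this, Complex.cpow_add _ _ hp0, Complex.cpow_add _ _ hp0, Complex.cpow_neg_one]
      ring
    rw [e1, e2, mean_eq, ← a_eq]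
    generalize (p : ℂ) ^ (-s) = z
    have e3 : (1 : (Fin n → ℂ) →ₗ[ℂ] (Fin n → ℂ)) -
        (((a N p : ℤ) : ℂ) * (1 / (p : ℂ) * z)) •
          Matrix.toLin' ((frob ρ p P).map fun z : ℚ => (z : ℂ)) +
        (1 / (p : ℂ) * z ^ 2) • (Matrix.toLin' ((frob ρ p P).map fun z : ℚ => (z : ℂ)) *
          Matrix.toLin' ((frob ρ p P).map fun z : ℚ => (z : ℂ))) =
        Matrix.toLin' (1 - (((a N p : ℤ) : ℂ) * (1 / (p : ℂ) * z)) •
          ((frob ρ p P).map fun z : ℚ => (z : ℂ)) + (1 / (p : ℂ) * z ^ 2) •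
          (((frob ρ p P).map fun z : ℚ => (z : ℂ)) * ((frob ρ p P).map fun z : ℚ => (z : ℂ)))) := by
      rw [map_add, map_sub, map_smul, map_smul, Matrix.toLin'_one, Matrix.toLin'_mul]
      rfl
    rw [e3, LinearMap.det_toLin', AlgHom.map_det]
    congr 1
    ext i k
    have e4 : (((frob ρ p P).map fun z : ℚ => (z : ℂ)) * ((frob ρ p P).map fun z : ℚ => (z : ℂ))) =
        (frob ρ p P ^ 2).map fun z : ℚ => (z : ℂ) := by
      rw [pow_two]
      exact (Matrix.map_mul (f := Rat.castHom ℂ)).symm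
    rw [e4]
    simp only [AlgHom.mapMatrix_apply, Matrix.map_apply, Matrix.add_apply, Matrix.sub_apply,
      Matrix.smul_apply, smul_eq_mul, map_add, map_sub, map_mul, map_pow, aeval_X, aeval_C]
    congr 1
    · congr 1
      · by_cases hik : i = k
        · subst hik
          simp
        · rw [Matrix.one_apply_ne hik, Matrix.one_apply_ne hik, map_zero]
      · rw [eq_ratCast, eq_ratCast]
        push_cast
        ring
    · rw [eq_ratCast, eq_ratCast]
      push_cast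
      ring

theorem isL {N : ℕ} {ρ : (F ≃ₐ[ℚ] F) →* Matrix (Fin n) (Fin n) ℤ} {Λ : ℂ → ℂ}
    (h1 : Differentiable ℂ Λ) (h3 : ∀ P : Nat.Primes → Ideal (𝓞 F),
      (∀ p, (P p).IsPrime ∧ (((p : ℕ) : ℕ) : 𝓞 F) ∈ P p) → ∀ s : ℂ, 3 / 2 < s.re →
        HasProd (fun p : Nat.Primes => Q155.EB.ef N (cpx ρ) p (P p) s) (Λ s)) :
    IsLFunction N ρ (fun s => Λ (s + 1)) := by
  refine ⟨h1.comp (differentiable_id.add_const 1), fun P hP s hs => ?_⟩
  have h4 := h3 P hP (s + 1) (by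
    rw [Complex.add_re, Complex.one_re]
    linarith)
  have h5 : (fun p : Nat.Primes => (aeval (((p : ℕ) : ℂ) ^ (-s)) (eulerPoly N ρ p (P p)))⁻¹) =
      fun p : Nat.Primes => Q155.EB.ef N (cpx ρ) p (P p) (s + 1) :=
    funext fun p => ef_eq' N ρ p p.2.ne_zero (P p) s
  rw [h5]
  exact h4

end rep

theorem complex_places {F : Type} [Field F] [NumberField F] {ω : F} (hω : ω ^ 2 + ω + 1 = 0)
    (v : InfinitePlace F) : v.IsComplex := by
  rw [← InfinitePlace.not_isReal_iff_isComplex]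
  intro hv
  have h1 : InfinitePlace.embedding_of_isReal hv ω ^ 2 + InfinitePlace.embedding_of_isReal hv ω + 1
      = 0 := by
    rw [← map_pow, ← map_add, ← map_one (InfinitePlace.embedding_of_isReal hv), ← map_add, hω,
      map_zero]
  nlinarith [sq_nonneg (InfinitePlace.embedding_of_isReal hv ω + 1 / 2)]

theorem main_field {ι : Type} [Fintype ι] {D : ι → ℕ} (hCl : ∀ i, Pool.Agent.Y703.CT.Cls (D i))
    {k : ℕ} {l : Fin k → ℕ} (hl : Q155.PC.Lv D l) {F : Type} [Field F] [NumberField F] {ω : F}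
    {θ : Fin k → F} (h : Q155.EB.Fd F l ω θ) (i : ι) : Formula (D i) F := by
  have hlp : ∀ j, (l j).Prime := fun j => (hl.1 j).1
  have hl1 : ∀ j, l j % 3 = 1 := fun j => by
    have := (hl.1 j).2.1
    omega
  have hc : ∀ e, Pool.Agent.Y703.CT.Cls (Q283.MC.tw (D i) l e) :=
    fun e => Q155.PC.cls_TF hCl hl (i, e)
  have hs : ∀ e, Pool.Agent.Y703.CT.NoSplit (Q283.MC.tw (D i) l e) :=
    fun e => Q155.PC.ns_TF hCl hl (i, e)
  have k2 := (Q155.PC.field (hCl i).1.1 hlp hl.2.1 hc hs F θ h.cube h.gen').2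
  have k4 : Finite ((curve (D i)).baseChange F).toAffine.Point := by
    rw [curve_eq]
    exact k2.1.1
  have k5 : ∀ (n : ℕ) (x : Pool.Agent.TH841.NF.D.Sha ((curve (D i)).baseChange F)),
      3 ^ n • x = 0 → 3 ^ k • x = 0 := by
    rw [curve_eq]
    exact k2.2
  have k3 : ∀ e, ∃ f : ℂ → ℂ, IsL (WD ((Q283.MC.tw (D i) l e : ℕ) : ℤ)) f ∧ f 1 ≠ 0 :=
    fun e => (Q283.MC.conc (hc e) (hs e)).2
  choose f hf hf1 using k3
  haveI := h.isGalois
  intro n ρ
  obtain ⟨Λ, h1, h2, h3⟩ := Q155.EB.lfun (N := D i) h hlp hl1 hl.2.1 hf hf1 (cpx ρ)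
  refine ⟨⟨fun s => Λ (s + 1), isL h1 h3, ?_⟩, fun j => ?_⟩
  · rw [AnalyticAt.analyticOrderAt_eq_zero]
    · rw [zero_add]
      exact h2
    · exact (h1.comp (differentiable_id.add_const 1)).analyticAt 0
  · exact Q155.BK.tw_zero (W := curve (D i)) (j := j) (r := ρ) Nat.prime_three
      (complex_places h.root) k4 k k5

theorem result (ι : Type) [Fintype ι] [Nonempty ι] (D : ι → ℕ) (hD : ∀ i, Base (D i))
    (h9 : ∀ i, D i % 9 ≠ 1 ∧ D i % 9 ≠ 8)
    (hC : (∀ i, Conclusion (D i)) ∨ ∀ i, (D i).primeFactors.card = 1) :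
    ∃ T : ∀ k : ℕ, (Fin k → ℕ) → Prop,
      T 0 Fin.elim0 ∧ (∀ (k : ℕ) (l : Fin k → ℕ), T k l → Settled D k l) ∧
      (∀ (k : ℕ) (l : Fin k → ℕ) (m : ℕ), T (k + 1) (Fin.snoc (α := fun _ => ℕ) l m) → T k l) ∧
      BranchingLaw D T ∧ ∃ l : ℕ → ℕ, StrictMono l ∧ ∀ k, T k fun j => l j := by
  have hCl : ∀ i, Pool.Agent.Y703.CT.Cls (D i) := fun i =>
    (Q283.TQ.cls_iff ⟨⟨(hD i).1, (hD i).2.1, (hD i).2.2.1⟩, (hD i).2.2.2⟩).2 (h9 i)
  have hN : ∀ i, Pool.Agent.Y703.CT.NoSplit (D i) := by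
    rcases hC with h | h
    · exact fun i => (Q283.TQ.con_iff (hCl i)).1 (h i)
    · exact fun i => Q155.PC.nosplit_prime (h i)
  refine ⟨fun k l => Q155.PC.Lv D l, ?_, ?_, ?_, ?_, ?_⟩
  · refine ⟨fun j => j.elim0, fun i => i.elim0, fun i e => ?_⟩
    have h0 : Q283.MC.tw (D i) Fin.elim0 e = D i := by
      unfold Q283.MC.tw
      rw [Fin.prod_univ_zero, mul_one]
    rw [h0]
    exact (Q283.TQ.con_iff (hCl i)).2 (hN i)
  · intro k l hl
    refine ⟨hl.1, hl.2.1, fun F _ _ ω θ hω hθ hgen => ?_⟩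
    have h : Q155.EB.Fd F l ω θ := ⟨hω, hθ, hgen⟩
    have hlp : ∀ j, (l j).Prime := fun j => (hl.1 j).1
    have hl1 : ∀ j, l j % 3 = 1 := fun j => by
      have := (hl.1 j).2.1
      omega
    refine ⟨h.isGalois, (h.finrank hlp hl.2.1).1, fun hk => ?_, fun i => main_field hCl hl h i⟩
    obtain ⟨c, hc, hcu⟩ := Q155.EB.conj_ex h hlp hl.2.1
    refine ⟨c, Q155.EB.gu h hlp hl.2.1 (Pi.single ⟨0, hk⟩ 1), fun hcom => ?_⟩
    rw [hcu] at hcom
    have h1 := Q155.EB.gu_inj h hlp hl.2.1 (mul_right_cancel hcom)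
    have h2 := congrFun h1 ⟨0, hk⟩
    rw [Pi.neg_apply, Pi.single_eq_same] at h2
    exact absurd h2 (by decide)
  · intro k l m h
    refine ⟨fun j => ?_, ?_, fun i e => ?_⟩
    · have := h.1 j.castSucc
      rwa [Fin.snoc_castSucc] at this
    · intro a b hab
      have h1 : (Fin.snoc (α := fun _ => ℕ) l m : Fin (k + 1) → ℕ) a.castSucc =
          (Fin.snoc (α := fun _ => ℕ) l m : Fin (k + 1) → ℕ) b.castSucc := by
        rw [Fin.snoc_castSucc, Fin.snoc_castSucc, hab]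
      exact Fin.castSucc_injective k (h.2.1 h1)
    · have h1 := h.2.2 i (Fin.snoc (α := fun _ => ZMod 3) e 0)
      rw [Q155.PC.tw_snoc, Fin.snoc_last, ZMod.val_zero, pow_zero, mul_one] at h1
      simp only [Fin.snoc_castSucc] at h1
      exact h1
  · intro k l hl
    obtain ⟨g1, g2, g3⟩ := Q155.PC.branch hCl hl
    exact ⟨_, g3, g1, g2, fun h => Q155.PC.c_pp hCl h hl⟩
  · exact Q155.EB.exists_seq hCl hN

end Pool.Agent.Results.MP_ec4e4b_nt.ArtinMotiveTwists
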