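import Pool.Agent.Q161.ESV.All

/-!
# Bloch-Kato Selmer groups of ALL quadratic twists of a 2-adic Galois representation, over every number field

Let `F` be any number field, `V` a 2-adic representation of `G_F = Gal(F^a/F)` with a stable lattice `T`, unramified
outside a finite set of primes, such that `T/2T` is semisimple and has no nonzero invariants; for instance the 2-adic realization of any motive
(of any weight and any dimension) with this property.  For `D ∈ F^*` let `V_D` be the twist of `V` by the quadratic character `χ_D` of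
`F(√D)`.  Order the twists by the norm of the product of the prime ideals at which the valuation of `D` is odd; `ω(D)` is the number of
these primes.  We prove that the dimension of the Bloch-Kato Selmer group `H¹_f(F, V_D)` is bounded on average, together with all
its exponential moments: for all `k` and `M ≥ 1`

  `∑_D M^ω(D) 2^(k dim H¹_f(F, V_D)) ≤ C ∑_D M^ω(D)`,

even without any condition at the primes above 2 and finitely many other primes.  In the conjecture of Bloch and Kato
`dim H¹_f - dim H⁰` is the order of vanishing of the L-function at the centre; here `H⁰(F, V_D) = 0`.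
The same holds for the elements killed by two in the Selmer groups of the twists of any discrete module `W`, divisible by two, with finite
semisimple `W[2]` without invariants (`W = V/T` in the first part).

Proof.  An element `c` of `Sel(W_D)[2]` is represented by a cocycle with values in `W[2]`; for a linear form `χ` on `W[2]` the map
`σ ↦ χ(c(σ))` on the stabiliser of `χ` is the character of a square root of an element `Δ_χ`.  At a prime `w` with odd valuation of `D` the local
condition gives a `t ∈ W[2]`, fixed by the decomposition group, with `v_w(Δ_χ) ≡ χ(t)`, and for two such data, `(D, Δ)` and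
`(D', Δ')`, with the same `t` the element `Δ_χ Δ'_χ (D D')^χ(t)` is a local square for invariant `χ`.  So the `Δ_χ` and `D` are products
of the values of equivariant functions `z : W[2] → K`, which satisfy a system of quadratic reciprocity conditions; the sieve for such
systems (projects ESM, ESN, ESB, `Pool/Agent/Q161`; for finite semisimple modules of any dimension) bounds their number.
Project of helper161 with helpers 14, 18, 24, 26, 38, 63, 65, 68, 79, 83, 92, 96, 110, 121, 123, 124, 129, 144, 147, 149, 150,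
151, 153, 158, 162, 164, 166, 177, 182, 184, 186, 187, 190, 193, 195, 208, 210, 211, 214, 223, 224, 237, 238, 241, 254, 256, 261,
275, 277, 285, 299.
-/

set_option autoImplicit false

namespace Pool.Agent.Results.MP_ec4e4b_nt.SelmerGroupsOfAllTwists

open Finset NumberField Pool.Agent.Q161.ESV

open Pool.Agent.Q161.ESN (Twists AllTwists)
open Pool.Agent.Q161.ESB (wt mass)

open scoped Classical

/-- The bounds for the statistics of the values `s D ≥ 0` over the quadratic twists, with the exponent `k` and the weights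
`M^(wt D)`.  (1) For every set `𝒟` of representatives of different twists up to `X ≥ 1`: with `L = X (1 + log X)^(M-1)` the sum of
`M^(wt D) (s D)^k` is at most `C L`; the mass of the `D ∈ 𝒟` with `s D ≥ T` is at most `C L / T^k` for all `T > 0`;
`∏_(D ∈ 𝒟) (s D)^k ≤ (C X / |𝒟|)^|𝒟|` if `𝒟` is not empty; if `X ≥ 3`, for all real `t` the sum of `(s D)^k` over the `D ∈ 𝒟` with
`wt D ≥ t log log X` is at most `C X (log X)^(M - 1 - t log M)`.  (2) If `𝒟` is complete the sum of `M^(wt D) (s D)^k` is at most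
`C mass M 𝒟`, and the mass of the `D` with `s D ≥ T` is at most `C mass M 𝒟 / T^k`. -/
def Bounds {F : Type} [Field F] [NumberField F] (s : F → ℝ) (M k : ℕ) (C : ℝ) : Prop :=
  (∀ X : ℝ, 1 ≤ X → ∀ 𝒟 : Finset F, Twists X 𝒟 →
    (∑ D ∈ 𝒟, (M : ℝ) ^ wt D * s D ^ k ≤ C * X * (1 + Real.log X) ^ (M - 1)) ∧
    (∀ T : ℝ, 0 < T → mass M (𝒟.filter (fun D => T ≤ s D)) ≤
      C * X * (1 + Real.log X) ^ (M - 1) / T ^ k) ∧
    (𝒟.Nonempty → ∏ D ∈ 𝒟, s D ^ k ≤ (C * X / 𝒟.card) ^ 𝒟.card) ∧
    (3 ≤ X → ∀ t : ℝ, ∑ D ∈ 𝒟.filter (fun D => t * Real.log (Real.log X) ≤ wt D), s D ^ k ≤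
      C * X * Real.log X ^ ((M : ℝ) - 1 - t * Real.log M))) ∧
  ∀ X : ℝ, 1 ≤ X → ∀ 𝒟 : Finset F, AllTwists X 𝒟 →
    (∑ D ∈ 𝒟, (M : ℝ) ^ wt D * s D ^ k ≤ C * mass M 𝒟) ∧
    ∀ T : ℝ, 0 < T → mass M (𝒟.filter (fun D => T ≤ s D)) ≤ C * mass M 𝒟 / T ^ k

/-- (I) For `B ≠ 0`, `D ∈ F^*` let `r(D) = rkV ρ B D` be the dimension over `ℚ_2` of the space `HV ρ B D` of the classes in
`H¹(F, V_D)`, `V = ℚ_2^n`, which satisfy the condition of Bloch and Kato at all primes not dividing `B`, that is whose restrictions to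
their inertia groups are trivial (`B = 2`: this contains `H¹_f(F, V_D)`).  Then `HV ρ B D` is finite-dimensional, and for all `M ≥ 1`,
`k` there is a `C` with `Bounds (2^r(D)) M k C`. -/
def RepBounds (F : Type) [Field F] [NumberField F] {n : ℕ} (ρ : GF F →* GL (Fin n) ℤ_[2]) : Prop :=
  ∀ B : ℕ, B ≠ 0 → (∀ D : F, D ≠ 0 → FiniteDimensional ℚ_[2] (HV ρ B D)) ∧
    ∀ M : ℕ, 1 ≤ M → ∀ k : ℕ, ∃ C : ℝ, 0 < C ∧ Bounds (fun D : F => (2 : ℝ) ^ rkV ρ B D) M k C

/-- (II) The group `Sel2 W B D` of the elements killed by 2 in the Selmer group of `W_D` with the Bloch-Kato conditions at the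
primes not dividing `B ≠ 0` is finite, and for all `M ≥ 1`, `k` there is a `C` with `Bounds #(Sel2 W B D) M k C`. -/
def ModBounds (F : Type) [Field F] [NumberField F] (W : Type) [AddCommGroup W]
    [DistribMulAction (GF F) W] : Prop :=
  ∀ B : ℕ, B ≠ 0 → (∀ D : F, D ≠ 0 → Finite (Sel2 W B D)) ∧
    ∀ M : ℕ, 1 ≤ M → ∀ k : ℕ, ∃ C : ℝ, 0 < C ∧ Bounds (fun D : F => (sel2 W B D : ℝ)) M k C

/-- (III) `W = ℚ_2^n/ℤ_2^n` satisfies the conditions of (II). -/
def QuotientAdm (F : Type) [Field F] {n : ℕ} (ρ : GF F →* GL (Fin n) ℤ_[2]) : Prop :=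
  ∃ (W : Type) (_ : AddCommGroup W) (_ : DistribMulAction (GF F) W) (f : (Fin n → ℚ_[2]) →+ W),
    Adm F W ∧ Function.Surjective f ∧ (∀ v, f v = 0 ↔ ∀ i, ‖v i‖ ≤ 1) ∧ ∀ σ v, σ • f v = f (act ρ σ v)

/-- (IV) There are complete sets of representatives of the twists up to `X` for all `X ≥ 1`, and their masses are between
`X (1 + log X)^(M-1) / C` and `C X (1 + log X)^(M-1)`. -/
def Family (F : Type) [Field F] [NumberField F] : Prop :=
  (∀ X : ℝ, 1 ≤ X → ∃ 𝒟 : Finset F, AllTwists X 𝒟) ∧
    ∀ M : ℕ, 1 ≤ M → ∃ C : ℝ, 1 ≤ C ∧ ∀ X : ℝ, 1 ≤ X → ∀ 𝒟 : Finset F, AllTwists X 𝒟 →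
      X * (1 + Real.log X) ^ (M - 1) / C ≤ mass M 𝒟 ∧ mass M 𝒟 ≤ C * X * (1 + Real.log X) ^ (M - 1)

/-- Let `F` be any number field, `ρ : G_F → GL_n(ℤ_2)` a continuous representation, unramified outside a finite set of primes, with
semisimple reduction modulo 2 without nonzero invariants (`AdV ρ`).  Then (I) and (III).
Let `W` be a discrete `G_F`-module which is divisible by 2, unramified outside a finite set of primes, with finite
semisimple `W[2]` without nonzero invariants (`Adm F W`).  Then (II).  Moreover (IV), and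
(V) there is a `ρ` as above with `F = ℚ`, `n = 2` (the proof gives one which factors through the cyclic cubic field of
conductor 7). -/
theorem result :
    (∀ (F : Type) [Field F] [NumberField F] (n : ℕ) (ρ : GF F →* GL (Fin n) ℤ_[2]), AdV ρ →
      RepBounds F ρ ∧ QuotientAdm F ρ) ∧
    (∀ (F : Type) [Field F] [NumberField F] (W : Type) [AddCommGroup W]
      [DistribMulAction (GF F) W], Adm F W → ModBounds F W) ∧
    (∀ (F : Type) [Field F] [NumberField F], Family F) ∧
    ∃ ρ : GF ℚ →* GL (Fin 2) ℤ_[2], AdV ρ := by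
  refine ⟨fun F _ _ n ρ hρ => ⟨fun B hB => ?_, WV ρ, inferInstance, inferInstance, mkW ρ,
    t_wad F n ρ hρ, mkW_surj ρ, fun v => mkW_eq_zero ρ, smul_mkW ρ⟩,
    fun F _ _ W _ _ hW B hB => ?_, fun F _ _ => ⟨fun X hX => ?_, fun M hM =>
    Pool.Agent.Q161.ESB.massFam Pool.Agent.Q161.ESB.t_cnt Pool.Agent.Q161.ESB.t_loww F M hM⟩, t_exa⟩
  · obtain ⟨h1, h2⟩ := momR t_act t_kdv t_fib t_rpz t_lca t_lcb t_cntv t_pow t_fdv t_rkm t_wad ρ hρ B hB
    exact ⟨h1, fun M hM k => Pool.Agent.Q161.ESB.allS Pool.Agent.Q161.ESB.t_cnt Pool.Agent.Q161.ESB.t_loww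
      (fun D _ => by positivity) h2 hM k⟩
  · have h1 := (oneW t_act t_kdv t_fib t_rpz t_lca t_lcb t_cntv W hW B hB).1
    have h2 := momV t_act t_kdv t_fib t_rpz t_lca t_lcb t_cntv t_pow W hW B hB
    exact ⟨h1, fun M hM k => Pool.Agent.Q161.ESB.allS Pool.Agent.Q161.ESB.t_cnt Pool.Agent.Q161.ESB.t_loww
      (fun D _ => Nat.cast_nonneg _) h2 hM k⟩
  · obtain ⟨C, -, hC⟩ := Pool.Agent.Q161.ESN.t_family F
    exact (hC X hX).1

end Pool.Agent.Results.MP_ec4e4b_nt.SelmerGroupsOfAllTwists
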